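import Pool.Agent.H38.SE.Tab
import Pool.Agent.H38.ML.SpecBridge

/-!
# [H38 SE BET] `ind(G) = 2`, `beta_K(G) = 2`, 80-130 lines. File Pool/Agent/H38/SE/Bet.lean

Similar: Pool/Agent/H48/T3/Bet.lean (`indG_A4`, `beta_A4`; read it first). `Spec.ind = H38.ML.ind`, `Spec.indG = H38.ML.indG` (same definitions, H38/ML/SpecBridge.lean or `rfl`).
* `indG6`: every `g ≠ 1` has index 2 or 4 (`tab_ind`), `swap 0 1` has index 2 (`g ^ 2 = 1`).
* `beta6`: the elements of index 2 are the `r6 e g`, `g ≠ 1`, `g ^ 2 = 1`: the six transpositions and the three double transpositions. `KConj`: `h = x g ^ a x⁻¹` where `σ ζ = ζ ^ a` for all `ζ ^ 24 = 1`; so `a` is odd (`σ` is injective on the roots of unity: `ζ = -1` gives `(-1)^a = -1`), `g ^ a = g` and `KConj` is conjugacy in `G` (take `σ = 1`, `a = 1` for the converse). The sign of `g ∈ Perm (Fin 4)` is an invariant which separates the two classes, and two elements of the same sign are conjugate (`decide` on `Perm (Fin 4)`).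
  So `Nat.card (Quot ..) = 2` (`Nat.card_congr` with `Bool`/`Fin 2`, the map sign). `Nat.card (G6 e) = 24` is not needed except for `ζ = -1`: `(-1)^24 = 1`.
-/

set_option autoImplicit false

open H38.ML

noncomputable section

namespace H38.SE

private theorem bet_cj : ∀ g h : Equiv.Perm (Fin 4), g ≠ 1 → g ^ 2 = 1 → h ≠ 1 → h ^ 2 = 1 →
    Equiv.Perm.sign g = Equiv.Perm.sign h → ∃ x, h = x * g * x⁻¹ := by
  decide +kernel

private theorem bet_ind (e : Fin 6 ≃ S2) (x : G6 e) (hx : x ≠ 1) :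
    (Spec.ind (x : Equiv.Perm (Fin 6)) = 2 ∨ Spec.ind (x : Equiv.Perm (Fin 6)) = 4) ∧
      (Spec.ind (x : Equiv.Perm (Fin 6)) = 2 ↔ ((g6e e).symm x) ^ 2 = 1) := by
  obtain ⟨g, rfl⟩ := (g6e e).surjective x
  rw [g6e_val, MulEquiv.symm_apply_apply]
  have hg : g ≠ 1 := by
    rintro rfl
    exact hx (map_one _)
  exact tab_ind e g hg

theorem indG6 (e : Fin 6 ≃ S2) : Spec.indG (G6 e) = 2 := by
  have hs : (g6e e (Equiv.swap 0 1)) ≠ 1 := by
    rw [Ne, EmbeddingLike.map_eq_one_iff]
    decide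
  have h2 := bet_ind e (g6e e (Equiv.swap 0 1)) hs
  have h3 : Spec.ind ((g6e e (Equiv.swap 0 1) : G6 e) : Equiv.Perm (Fin 6)) = 2 := by
    rw [h2.2, MulEquiv.symm_apply_apply]
    decide
  unfold Spec.indG
  apply le_antisymm
  · exact Nat.sInf_le ⟨_, (g6e e (Equiv.swap 0 1)).2, fun h => hs (Subtype.ext h), h3⟩
  · refine le_csInf ⟨2, _, (g6e e (Equiv.swap 0 1)).2, fun h => hs (Subtype.ext h), h3⟩ ?_
    rintro k ⟨g, hg, h1, rfl⟩
    have h4 := (bet_ind e ⟨g, hg⟩ (fun h => h1 (congrArg Subtype.val h))).1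
    change Spec.ind g = 2 ∨ Spec.ind g = 4 at h4
    omega

theorem beta6 (e : Fin 6 ≃ S2) (K : IntermediateField ℚ QBar) : Spec.betaAll K QBar (G6 e) = 2 := by
  have hc : Nat.card (G6 e) = 24 := by
    rw [← Nat.card_congr (g6e e).toEquiv, Nat.card_eq_fintype_card, Fintype.card_perm, Fintype.card_fin]
    rfl
  let T := {g : G6 e // g ≠ 1 ∧ Spec.ind (g : Equiv.Perm (Fin 6)) = Spec.indG (G6 e)}
  let R : T → T → Prop := fun g h => Spec.KConj K QBar (G6 e) g.1 h.1
  have hT : ∀ t : T, (g6e e).symm t.1 ≠ 1 ∧ ((g6e e).symm t.1) ^ 2 = 1 := by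
    intro t
    refine ⟨?_, ?_⟩
    · rw [Ne, EmbeddingLike.map_eq_one_iff]
      exact t.2.1
    · rw [← (bet_ind e t.1 t.2.1).2, t.2.2, indG6]
  have hmk : ∀ g : Equiv.Perm (Fin 4), g ≠ 1 → g ^ 2 = 1 → ∃ t : T, (g6e e).symm t.1 = g := by
    intro g h1 h2
    have h3 : g6e e g ≠ 1 := by
      rw [Ne, EmbeddingLike.map_eq_one_iff]
      exact h1
    refine ⟨⟨g6e e g, h3, ?_⟩, MulEquiv.symm_apply_apply _ _⟩
    rw [indG6, (bet_ind e _ h3).2, MulEquiv.symm_apply_apply]
    exact h2
  have hR : ∀ g h : T, R g h ↔ Equiv.Perm.sign ((g6e e).symm g.1) = Equiv.Perm.sign ((g6e e).symm h.1) := by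
    intro g h
    constructor
    · rintro ⟨σ, a, x, h1, h2⟩
      rw [hc] at h1
      have h4 : (-1 : QBar) = (-1) ^ a := by
        have := h1 (-1) (by norm_num)
        rwa [map_neg, map_one] at this
      have h6 : a % 2 = 1 := by
        rcases Nat.mod_two_eq_zero_or_one a with h | h
        · exfalso
          rw [Even.neg_one_pow (Nat.even_iff.2 h)] at h4
          have : (2 : QBar) = 0 := by linear_combination -h4
          exact two_ne_zero this
        · exact h
      have h5 := congrArg (g6e e).symm h2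
      rw [map_mul, map_mul, map_pow, map_inv, ← Nat.div_add_mod a 2, pow_add, pow_mul, (hT g).2, one_pow, one_mul, h6,
        pow_one] at h5
      rw [h5, map_mul, map_mul, Equiv.Perm.sign_inv, mul_comm, ← mul_assoc, Int.units_mul_self, one_mul]
    · intro h1
      obtain ⟨x, hx⟩ := bet_cj _ _ (hT g).1 (hT g).2 (hT h).1 (hT h).2 h1
      refine ⟨1, 1, g6e e x, fun ζ _ => by rw [pow_one]; rfl, ?_⟩
      apply (g6e e).symm.injective
      rw [map_mul, map_mul, map_inv, pow_one, MulEquiv.symm_apply_apply]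
      exact hx
  let F : Quot R → ℤˣ := Quot.lift (fun g => Equiv.Perm.sign ((g6e e).symm g.1))
    fun g h hgh => (hR g h).1 hgh
  have hF : Function.Bijective F := by
    constructor
    · intro a b
      obtain ⟨g, rfl⟩ := Quot.exists_rep a
      obtain ⟨h, rfl⟩ := Quot.exists_rep b
      intro hab
      exact Quot.sound ((hR g h).2 hab)
    · intro u
      rcases Int.units_eq_one_or u with rfl | rfl
      · obtain ⟨t, ht⟩ := hmk (Equiv.swap 0 1 * Equiv.swap 2 3) (by decide) (by decide)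
        refine ⟨Quot.mk _ t, ?_⟩
        change Equiv.Perm.sign _ = 1
        rw [ht]
        decide
      · obtain ⟨t, ht⟩ := hmk (Equiv.swap 0 1) (by decide) (by decide)
        refine ⟨Quot.mk _ t, ?_⟩
        change Equiv.Perm.sign _ = -1
        rw [ht]
        decide
  change Nat.card (Quot R) = 2
  rw [Nat.card_congr (Equiv.ofBijective F hF), Nat.card_eq_fintype_card, Fintype.card_units_int]

end H38.SE
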