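import Pool.Agent.H38.SE.Defs
import Pool.Agent.H38.AS.QNk
import Pool.Agent.H38.ML.Small

/-!
# [H38 SE CHC] the cubic field of a character onto `S_3`, 60-110 lines. File Pool/Agent/H38/SE/Chc.lean

* `chT χ`: `χ` as a homomorphism to `⊤ : Subgroup (Perm (Fin 3))` (given), `fieldOf 0 (chT χ) = F0 χ` (both are the fixed field of `{σ | χ σ 0 = 0}`: `qn_mem` in H38/AS/QNk.lean, `IntermediateField.mem_fixedField_iff`); `⊤` is transitive (`Equiv.swap`).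
* `chc`: `small_field` (H38/ML/Small.lean) for `⊤`, `chT χ`: finite, degree 3. Not Galois: if `F0 χ` is Galois over `K`, then `(F0 χ).fixingSubgroup` is normal, it is `{σ | χ σ 0 = 0}` (`fixing_fixedField`, H38/ML/Factor.lean, as in the proof of `small_field`); `χ` is surjective, so the stabilizer of `0` is normal in `Perm (Fin 3)`: choose `χ σ = swap 1 2`, `χ τ = swap 0 1`: `χ (τ σ τ⁻¹) 0 = 2 ≠ 0`.
* `dD1`: `relDisc` of a number field is the norm of a nonzero ideal (`differentIdeal ≠ ⊥`, `Ideal.absNorm_eq_zero_iff`; `dif_pos`).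
* `cdd`: `c.D = dD χ` for `c.F = F0 χ`: unfold.
-/

set_option autoImplicit false

open scoped NumberField Classical
open IsDedekindDomain H38.ML H63.MA H67.SX

noncomputable section

namespace H38.SE

variable {K : IntermediateField ℚ QBar} [NumberField K]

/-- `χ` with values in `⊤` -/
def chT (χ : Gal(QBar/K) →* Equiv.Perm (Fin 3)) : Gal(QBar/K) →* (⊤ : Subgroup (Equiv.Perm (Fin 3))) :=
  (Subgroup.topEquiv (G := Equiv.Perm (Fin 3))).symm.toMonoidHom.comp χ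

theorem cht_val (χ : Gal(QBar/K) →* Equiv.Perm (Fin 3)) (σ : Gal(QBar/K)) :
    ((chT χ σ : (⊤ : Subgroup (Equiv.Perm (Fin 3)))) : Equiv.Perm (Fin 3)) = χ σ := rfl

theorem cht_tr : MulAction.IsPretransitive (⊤ : Subgroup (Equiv.Perm (Fin 3))) (Fin 3) := by
  constructor
  intro x y
  exact ⟨⟨Equiv.swap x y, Subgroup.mem_top _⟩, Equiv.swap_apply_left x y⟩

theorem cht_fd (χ : Gal(QBar/K) →* Equiv.Perm (Fin 3)) : fieldOf (0 : Fin 3) (chT χ) = F0 χ := by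
  unfold F0
  congr 1

theorem cht_ft {χ : Gal(QBar/K) →* Equiv.Perm (Fin 3)} (h : χ ∈ Ch K) :
    FT (chT χ) ∧ Function.Surjective (chT χ) := by
  obtain ⟨⟨E, hE, hle⟩, hs⟩ := h
  constructor
  · refine ⟨E, hE, fun σ hσ => ?_⟩
    have h1 : χ σ = 1 := hle hσ
    apply Subtype.ext
    rw [cht_val, h1]
    rfl
  · intro g
    obtain ⟨σ, hσ⟩ := hs g
    exact ⟨σ, Subtype.ext (by rw [cht_val, hσ])⟩

private theorem chc_fin (χ : Gal(QBar/K) →* Equiv.Perm (Fin 3)) (h : χ ∈ Ch K) :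
    FiniteDimensional K (F0 χ) ∧ Module.finrank K (F0 χ) = 3 := by
  obtain ⟨h1, h2⟩ := cht_ft h
  have h3 := small_field (⊤ : Subgroup (Equiv.Perm (Fin 3))) cht_tr K 0 (chT χ) h2 h1
  rw [cht_fd] at h3
  exact ⟨h3.1, h3.2.1⟩

theorem chc (χ : Gal(QBar/K) →* Equiv.Perm (Fin 3)) (h : χ ∈ Ch K) : ∃ c : Cu K, c.F = F0 χ := by
  obtain ⟨hf, hd⟩ := chc_fin χ h
  refine ⟨⟨F0 χ, hd, fun hG => ?_⟩, rfl⟩
  obtain ⟨h1, h2⟩ := cht_ft h
  have hmem : ∀ σ : Gal(QBar/K), σ ∈ (F0 χ).fixingSubgroup ↔ χ σ 0 = 0 := by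
    intro σ
    rw [← cht_fd]
    exact H38.AS.qn_fix (0 : Fin 3) (chT χ) h1 σ
  have hgal : IsGalois K QBar := IsAlgClosure.isGalois K QBar
  have hn : (F0 χ).fixingSubgroup.Normal := (InfiniteGalois.normal_iff_isGalois (F0 χ)).2 hG
  obtain ⟨σ, hσ⟩ := h.2 (Equiv.swap 1 2)
  obtain ⟨τ, hτ⟩ := h.2 (Equiv.swap 0 1)
  have h3 := hn.conj_mem σ ((hmem σ).2 (by rw [hσ]; decide)) τ
  rw [hmem, map_mul, map_mul, map_inv, hσ, hτ] at h3
  revert h3
  decide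

theorem cdd (χ : Gal(QBar/K) →* Equiv.Perm (Fin 3)) (c : Cu K) (h : c.F = F0 χ) :
    c.D = (dD χ : ℝ) := by
  unfold Cu.D dD
  rw [h]

theorem dD1 (χ : Gal(QBar/K) →* Equiv.Perm (Fin 3)) (h : χ ∈ Ch K) : 1 ≤ dD χ := by
  obtain ⟨hf, hd⟩ := chc_fin χ h
  have hN : NumberField (F0 χ) := NumberField.of_module_finite K (F0 χ)
  unfold dD relDisc
  rw [dif_pos hN]
  rw [Nat.one_le_iff_ne_zero, Ne, Ideal.absNorm_eq_zero_iff]
  exact differentIdeal_ne_bot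

end H38.SE
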