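import Pool.Agent.H67.SX.Defs

/-!
# H38/SE: the end of SX (MP_b39724_nt, `S_4` in degree 6). Definitions (complete)

* `pi4 : Perm (Fin 4) →* Perm (Fin 3)`: the action on the three double transpositions `dt 0, dt 1, dt 2`, `g (dt i) g⁻¹ = dt (pi4 g i)`.
* `Ch K`: the surjective homomorphisms of finite type to `Perm (Fin 3)`; `F0 χ`: the field of the point `0`, a non-Galois cubic field.
* `qs pi Q S φ`: the primes outside `S` at which the image of the inertia group contains an element `≠ 1` of `ker pi`; `qf` the same as a finite set.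
* `Fib`: the lifts `φ` of `χ` with `ds φ = d` and `nr (qf φ) ≤ Y`. `ND`: the surjective `φ` with `ds φ = d` and `relDisc (F0 (pi ∘ φ)) * nr (qf φ) ≤ X`.
* `FFS K S Q pi`: interface of chapter FF (fibre formula), for every `ds` with `LocInv Q S ds` (H48/T3/Defs.lean).
* `EE ι α`: abstract data for the count. `i : ι` the characters, `D i` the discriminant, `s i` the number of classes, `N i Y` the number of lifts
  with `nr ≤ Y`, `w i` the mean value, `Z i` the set of the error terms of `i`, `F x Y` their absolute values.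
-/

set_option autoImplicit false

open scoped NumberField Classical
open IsDedekindDomain H38.ML H63.MA Filter Topology H67.SX

noncomputable section

namespace H38.SE

section grp

/-- the three double transpositions -/
def dt (i : Fin 3) : Equiv.Perm (Fin 4) :=
  if i = 0 then Equiv.swap 0 1 * Equiv.swap 2 3
  else if i = 1 then Equiv.swap 0 2 * Equiv.swap 1 3
  else Equiv.swap 0 3 * Equiv.swap 1 2

/-- the number of a double transposition -/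
def dn (g : Equiv.Perm (Fin 4)) : Fin 3 := if g 0 = 1 then 0 else if g 0 = 2 then 1 else 2

theorem dt_dn : ∀ (g : Equiv.Perm (Fin 4)) (i : Fin 3), dt (dn (g * dt i * g⁻¹)) = g * dt i * g⁻¹ := by
  decide +kernel

theorem dn_dt : ∀ i : Fin 3, dn (dt i) = i := by decide +kernel

/-- the action on the three double transpositions -/
def pi4 : Equiv.Perm (Fin 4) →* Equiv.Perm (Fin 3) where
  toFun g := ⟨fun i => dn (g * dt i * g⁻¹), fun i => dn (g⁻¹ * dt i * g⁻¹⁻¹), fun i => by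
    change dn (g⁻¹ * dt (dn (g * dt i * g⁻¹)) * g⁻¹⁻¹) = i
    have h : g⁻¹ * (g * dt i * g⁻¹) * g⁻¹⁻¹ = dt i := by group
    rw [dt_dn, h, dn_dt], fun i => by
    change dn (g * dt (dn (g⁻¹ * dt i * g⁻¹⁻¹)) * g⁻¹) = i
    have h : g * (g⁻¹ * dt i * g⁻¹⁻¹) * g⁻¹ = dt i := by group
    rw [dt_dn, h, dn_dt]⟩
  map_one' := by
    ext i : 1
    change dn (1 * dt i * 1⁻¹) = i
    have h : (1 : Equiv.Perm (Fin 4)) * dt i * 1⁻¹ = dt i := by group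
    rw [h, dn_dt]
  map_mul' g h := by
    ext i : 1
    change dn (g * h * dt i * (g * h)⁻¹) = dn (g * dt (dn (h * dt i * h⁻¹)) * g⁻¹)
    have e : g * h * dt i * (g * h)⁻¹ = g * (h * dt i * h⁻¹) * g⁻¹ := by group
    rw [dt_dn, e]

theorem pi4_dt (g : Equiv.Perm (Fin 4)) (i : Fin 3) : dt (pi4 g i) = g * dt i * g⁻¹ := dt_dn g i

end grp

section con

variable {K : IntermediateField ℚ QBar} [NumberField K] {G : Type} [Group G]

/-- the surjective homomorphisms of finite type to `Perm (Fin 3)` -/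
def Ch (K : IntermediateField ℚ QBar) [NumberField K] : Set (Gal(QBar/K) →* Equiv.Perm (Fin 3)) :=
  {χ | FT χ ∧ Function.Surjective χ}

/-- the field of the point `0` -/
def F0 (χ : Gal(QBar/K) →* Equiv.Perm (Fin 3)) : IntermediateField K QBar :=
  IntermediateField.fixedField ((MulAction.stabilizer (Equiv.Perm (Fin 3)) (0 : Fin 3)).comap χ)

/-- its discriminant -/
def dD (χ : Gal(QBar/K) →* Equiv.Perm (Fin 3)) : ℕ := H38.ML.relDisc K (F0 χ)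

/-- the primes outside `S` at which the image of inertia contains a nontrivial element of `ker pi` -/
def qs (pi : G →* Equiv.Perm (Fin 3)) (Q : DP K QBar) (S : Finset (Pl K))
    (φ : Gal(QBar/K) →* G) : Set (Pl K) :=
  {l | l ∉ S ∧ ∃ σ ∈ (Q.P l).inertia Gal(QBar/K), φ σ ≠ 1 ∧ pi (φ σ) = 1}

/-- `qs` as a finite set -/
def qf (pi : G →* Equiv.Perm (Fin 3)) (Q : DP K QBar) (S : Finset (Pl K))
    (φ : Gal(QBar/K) →* G) : Finset (Pl K) :=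
  if h : (qs pi Q S φ).Finite then h.toFinset else ∅

/-- one fibre -/
def Fib (pi : G →* Equiv.Perm (Fin 3)) (Q : DP K QBar) (S : Finset (Pl K))
    (ds : (Gal(QBar/K) →* G) → ℕ) (χ : Gal(QBar/K) →* Equiv.Perm (Fin 3)) (d : ℕ) (Y : ℝ) :
    Set (Gal(QBar/K) →* G) :=
  {φ | FT φ ∧ Function.Surjective φ ∧ pi.comp φ = χ ∧ ds φ = d ∧
    ∀ q : Finset (Pl K), (∀ l ∈ q, l ∈ qs pi Q S φ) → nr q ≤ Y}

/-- all fibres -/
def ND (pi : G →* Equiv.Perm (Fin 3)) (Q : DP K QBar) (S : Finset (Pl K))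
    (ds : (Gal(QBar/K) →* G) → ℕ) (d : ℕ) (X : ℝ) : Set (Gal(QBar/K) →* G) :=
  {φ | FT φ ∧ Function.Surjective φ ∧ ds φ = d ∧
    (dD (pi.comp φ) : ℝ) * nr (qf pi Q S φ) ≤ X}

/-- CHAPTER FF: the fibre formula -/
def FFS (K : IntermediateField ℚ QBar) [NumberField K] (S : Finset (Pl K)) (Q : DP K QBar)
    (pi : G →* Equiv.Perm (Fin 3)) : Prop :=
  ∀ ds : (Gal(QBar/K) →* G) → ℕ, H48.T3.LocInv Q S ds →
    (∃ Df : Finset ℕ, ∀ φ : Gal(QBar/K) →* G, FT φ → Function.Surjective φ → ds φ ∈ Df) ∧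
    ∃ (C : ℝ) (W : ℕ → Cu K → ℝ), 1 ≤ C ∧ (∀ d c, 0 ≤ W d c ∧ W d c ≤ C) ∧
      (∀ d c c', LEq S Q c c' → W d c = W d c') ∧ (∀ c, ∃ d, 0 < W d c) ∧
      ∀ (d : ℕ), ∀ χ ∈ Ch K, ∀ c : Cu K, c.F = F0 χ → ∃ Z : Finset (AQ K S), (∀ x ∈ Z, x.c = c) ∧
        (Z.card : ℝ) ≤ C * H48.KV.selg c.F ∧
        ∀ Y : ℝ, 1 ≤ Y → (Fib pi Q S ds χ d Y).Finite ∧
          |((Fib pi Q S ds χ d Y).ncard : ℝ) - W d c * c.mq S Y| ≤ C + C * ∑ x ∈ Z, |x.sq Y| ∧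
          ((Fib pi Q S ds χ d Y).ncard : ℝ) ≤ C * H48.KV.selg c.F * ∑ q ∈ AS K S Y, (3 : ℝ) ^ q.card

end con

/-- abstract data for the count -/
structure EE (ι α : Type) where
  P : Set ι
  D : ι → ℕ
  s : ι → ℝ
  N : ι → ℝ → ℝ
  w : ι → ℝ
  Z : ι → Finset α
  F : α → ℝ → ℝ
  C : ℝ
  δ : ℝ
  A : ℕ
  a : ℝ
  C1 : 1 ≤ C
  δ0 : 0 < δ
  δ1 : δ ≤ 1
  D1 : ∀ i ∈ P, 1 ≤ D i
  s1 : ∀ i ∈ P, 1 ≤ s i
  fin : ∀ R : ℕ, {i | i ∈ P ∧ D i ≤ R}.Finite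
  sm : ∀ (R : ℕ) (T : Finset ι), (∀ i ∈ T, i ∈ P ∧ D i ≤ R) → ∑ i ∈ T, s i ≤ C * R
  N0 : ∀ i Y, 0 ≤ N i Y
  N1 : ∀ i ∈ P, ∀ Y, 1 ≤ Y → N i Y ≤ C * s i * Y * (1 + Real.log Y) ^ 2
  w0 : ∀ i, 0 ≤ w i
  Zc : ∀ i ∈ P, ((Z i).card : ℝ) ≤ C * s i
  Zm : ∀ (x : α) (T : Finset ι), (∀ i ∈ T, i ∈ P ∧ x ∈ Z i) → T.card ≤ 3
  F0 : ∀ x Y, 0 ≤ F x Y
  FT : ∀ i ∈ P, ∀ x ∈ Z i, ∀ Y, 1 ≤ Y →
    F x Y ≤ C * Y * (1 + Real.log Y) ^ 2 * (1 + Real.log (D i)) ^ 3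
  F1 : ∀ i ∈ P, ∀ x ∈ Z i, ∀ Y, 1 ≤ Y → F x Y ≤ C * (D i : ℝ) ^ A * Y ^ (1 - δ)
  F2 : ∀ (B : ℕ) (ε : ℝ), 0 < ε → ∃ R₀ : ℝ, 3 ≤ R₀ ∧ ∀ R : ℝ, R₀ ≤ R → ∀ J : Set α,
    (∀ x ∈ J, (∃ i ∈ P, x ∈ Z i ∧ (D i : ℝ) ≤ R) ∧
      ∃ Y : ℝ, Real.exp (Real.log (Real.log R) ^ 3) ≤ Y ∧ Y / Real.log R ^ B < F x Y) →
    J.Finite ∧ (J.ncard : ℝ) ≤ R ^ ε
  E1 : ∀ i ∈ P, ∀ Y, 1 ≤ Y → |N i Y - w i * Y| ≤ C + C * ∑ x ∈ Z i, F x Y
  m : Tendsto (fun R : ℕ => (∑ i ∈ (fin R).toFinset, w i) / (R : ℝ)) atTop (𝓝 a)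

end H38.SE
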