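import Pool.Agent.H38.SE.Chc
import Pool.Agent.H38.EN.Nds

/-!
# [H38 SE NDS] the count as a sum over the characters, 60-90 lines (a copy). File Pool/Agent/H38/SE/Nds.lean

Copy of `tf_mem`, `nds` in Pool/Agent/H38/EN/Nds.lean.
* `qf_mem`: `qs pi Q S φ` is contained in the finite set `H38.WM.Rm Q φ` (`H38.WM.rmF`).
* `nds6`: `ND pi Q S ds d X` is the disjoint union over the `χ ∈ Ch K` with `dD χ ≤ ⌊X⌋₊` of the sets `Fib pi Q S ds χ d (X / dD χ)` (`χ = pi ∘ φ`, `ft_comp`, `hpi`; `dD χ ≥ 1` by `dD1`, `nr ≥ 1`, so `dD χ ≤ dD χ nr ≤ X` gives `dD χ ≤ ⌊X⌋₊` by `Nat.le_floor`; conversely `1 ≤ dD χ ≤ ⌊X⌋₊` gives `dD χ ≤ X`: `Nat.floor_le` with `X ≥ 0`, because `⌊X⌋₊ ≥ 1`).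
-/

set_option autoImplicit false

open scoped NumberField Classical
open IsDedekindDomain H38.ML H63.MA H67.SX

noncomputable section

namespace H38.SE

variable {K : IntermediateField ℚ QBar} [NumberField K] {G : Type} [Group G]

theorem qf_mem (pi : G →* Equiv.Perm (Fin 3)) (Q : DP K QBar) (S : Finset (Pl K))
    (φ : Gal(QBar/K) →* G) (hφ : FT φ) (l : Pl K) : l ∈ qf pi Q S φ ↔ l ∈ qs pi Q S φ := by
  have h : (qs pi Q S φ).Finite := by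
    refine (H38.WM.rmF Q φ hφ).subset ?_
    rintro l ⟨-, σ, hσ, h1, -⟩
    exact ⟨σ, hσ, h1⟩
  unfold qf
  rw [dif_pos h, Set.Finite.mem_toFinset]

theorem nds6 (pi : G →* Equiv.Perm (Fin 3)) (hpi : Function.Surjective pi) (Q : DP K QBar)
    (S : Finset (Pl K)) (ds : (Gal(QBar/K) →* G) → ℕ) (d : ℕ)
    (hfin : ∀ χ ∈ Ch K, ∀ Y : ℝ, 1 ≤ Y → (Fib pi Q S ds χ d Y).Finite)
    (hP : ∀ R : ℕ, {χ : Gal(QBar/K) →* Equiv.Perm (Fin 3) | χ ∈ Ch K ∧ dD χ ≤ R}.Finite) (X : ℝ) :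
    (ND pi Q S ds d X).Finite ∧ (ND pi Q S ds d X).ncard =
      ∑ χ ∈ (hP ⌊X⌋₊).toFinset, (Fib pi Q S ds χ d (X / dD χ)).ncard := by
  have hd1 : ∀ χ ∈ Ch K, (1 : ℝ) ≤ (dD χ : ℝ) := fun χ hχ => by exact_mod_cast dD1 χ hχ
  have hnr : ∀ (φ : Gal(QBar/K) →* G), FT φ → ∀ Y : ℝ,
      (nr (qf pi Q S φ) ≤ Y ↔ ∀ q : Finset (Pl K), (∀ l ∈ q, l ∈ qs pi Q S φ) → nr q ≤ Y) := by
    intro φ hφ Y
    constructor
    · intro h q hq
      refine (nr_mono fun l hl => ?_).trans h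
      rw [qf_mem pi Q S φ hφ]
      exact hq l hl
    · intro h
      exact h _ fun l hl => (qf_mem pi Q S φ hφ l).1 hl
  have hle : ∀ χ ∈ Ch K, dD χ ≤ ⌊X⌋₊ → (dD χ : ℝ) ≤ X := by
    intro χ hχ h
    have h1 := dD1 χ hχ
    have h2 : 0 ≤ X := by
      by_contra h3
      rw [Nat.floor_of_nonpos (not_le.1 h3).le] at h
      omega
    exact (Nat.cast_le.2 h).trans (Nat.floor_le h2)
  have hFin : ∀ χ ∈ (hP ⌊X⌋₊).toFinset, (Fib pi Q S ds χ d (X / dD χ)).Finite := by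
    intro χ hχ
    rw [Set.Finite.mem_toFinset] at hχ
    refine hfin χ hχ.1 _ ?_
    rw [one_le_div (by linarith [hd1 χ hχ.1])]
    exact hle χ hχ.1 hχ.2
  have hU : ND pi Q S ds d X = ⋃ χ ∈ (hP ⌊X⌋₊).toFinset, Fib pi Q S ds χ d (X / dD χ) := by
    ext φ
    simp only [Set.mem_iUnion, exists_prop, Set.Finite.mem_toFinset]
    constructor
    · rintro ⟨h1, h2, h3, h4⟩
      have hCh : pi.comp φ ∈ Ch K := ⟨ft_comp pi φ h1, hpi.comp h2⟩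
      have h6 := hd1 _ hCh
      refine ⟨pi.comp φ, ⟨hCh, ?_⟩, h1, h2, rfl, h3, ?_⟩
      · refine Nat.le_floor (le_trans ?_ h4)
        have h5 := one_le_nr (qf pi Q S φ)
        nlinarith
      · rw [← hnr φ h1, le_div_iff₀ (by linarith), mul_comm]
        exact h4
    · rintro ⟨χ, ⟨hχ, hχX⟩, h1, h2, rfl, h3, h4⟩
      have h6 := hd1 _ hχ
      refine ⟨h1, h2, h3, ?_⟩
      rw [← hnr φ h1, le_div_iff₀ (by linarith), mul_comm] at h4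
      exact h4
  have hdisj : ∀ χ ∈ (hP ⌊X⌋₊).toFinset, ∀ χ' ∈ (hP ⌊X⌋₊).toFinset, χ ≠ χ' →
      Disjoint (Fib pi Q S ds χ d (X / dD χ)) (Fib pi Q S ds χ' d (X / dD χ')) := by
    intro χ _ χ' _ hne
    rw [Set.disjoint_left]
    rintro φ ⟨_, _, h1, _⟩ ⟨_, _, h2, _⟩
    exact hne (h1.symm.trans h2)
  have hND : (ND pi Q S ds d X).Finite := by
    rw [hU]
    exact Set.Finite.biUnion (Finset.finite_toSet _) hFin
  refine ⟨hND, ?_⟩
  rw [hU]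
  have h1 := Set.Finite.ncard_biUnion (t := ((hP ⌊X⌋₊).toFinset : Set (Gal(QBar/K) →* Equiv.Perm (Fin 3))))
    (s := fun χ => Fib pi Q S ds χ d (X / dD χ)) (Finset.finite_toSet _)
    (fun χ hχ => hFin χ hχ) (fun χ hχ χ' hχ' hne => hdisj χ hχ χ' hχ' hne)
  rw [finsum_mem_coe_finset] at h1
  exact h1

end H38.SE
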