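import Pool.Agent.H38.SE.Gr2
import Pool.Agent.H38.ML.InertOrb

/-!
# [H38 SE TAB] the indices of the elements of `S_4` in degree 6 and degree 3, 110-180 lines. File Pool/Agent/H38/SE/Tab.lean

Table (`g ∈ S_4`; `orbs` on the six pairs; `orbs` of `pi4 g` on three points; does `⟨g⟩` contain a double transposition): `1`: 6, 3, no; transposition: 4, 2, no; double transposition: 4, 3, yes; 3-cycle: 2, 1, no; 4-cycle: 2, 2, yes. So `6 - orbs(⟨g⟩) = 2 (3 - orbs(⟨pi4 g⟩)) + 2 [⟨g⟩ contains a double transposition]`.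
* `orb_min`: for `p : Perm (Fin n)` with `p ^ m = 1`, `m > 0`: `orbs (zpowers p)` is the number of `i` with `i ≤ (p ^ k) i` for all `k < m` (the least elements of the orbits). [Map every such `i` to its orbit: injective because two minima of the same orbit are equal, surjective because every orbit is finite: `Finset.exists_min_image`. `x ∈ orbit` iff `x = (p ^ k) y` for some `k < m`: exponents in `ℤ` modulo `m` as in `two_le` of H38/EN/Adi.lean.]
* Every numbering `e` is conjugate to a fixed one: `r6 e g = c⁻¹ * r6 e₀ g * c` with `c = e.trans e₀.symm` (`r6_val`), so `orbs (zpowers (r6 e g)) = orbs (zpowers (r6 e₀ g))` (`orbs_conj`, H38/ML/InertOrb.lean). For a computation choose any `e₀` (`Fintype.equivFinOfCardEq` exists by `Fintype.card S2 = 6`; for `decide` an explicit one: the list `{0,1}, {0,2}, {0,3}, {1,2}, {1,3}, {2,3}`),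
  and use `orb_min` with `m = 12`, `decide +kernel` over the 24 elements; or avoid `Fin 6`: `orbs (zpowers (r6 e g))` is the number of orbits of `⟨g⟩` on `S2` and Burnside's lemma; or reduce to five conjugacy classes (`orbs_conj`, the table is invariant under conjugation, `decide` that every `g` is conjugate to one of `1, (01), (01)(23), (012), (0123)`) and compute the orbits by hand. Any way is good.
* `tabG`: the version for the group `G6 e`.
-/

set_option autoImplicit false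

open scoped NumberField Classical
open H38.ML

noncomputable section

namespace H38.SE

private theorem zred {G : Type} [Group G] (p : G) (m : ℕ) (hm : 0 < m) (hp : p ^ m = 1) (z : ℤ) :
    ∃ k < m, p ^ z = p ^ k := by
  have hm' : (0 : ℤ) < m := by exact_mod_cast hm
  refine ⟨(z % m).toNat, ?_, ?_⟩
  · have h9 := Int.emod_lt_of_pos z hm'
    have h10 := Int.emod_nonneg z hm'.ne'
    omega
  · have h6 : p ^ (m : ℤ) = 1 := by
      rw [zpow_natCast]
      exact hp
    have h5 : z = m * (z / m) + z % m := (Int.mul_ediv_add_emod z m).symm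
    have h7 : ((z % m).toNat : ℤ) = z % m := Int.toNat_of_nonneg (Int.emod_nonneg z hm'.ne')
    calc p ^ z = p ^ ((m : ℤ) * (z / m) + z % m) := by rw [← h5]
      _ = p ^ (z % m) := by rw [zpow_add, zpow_mul, h6, one_zpow, one_mul]
      _ = p ^ (((z % m).toNat : ℕ) : ℤ) := by rw [h7]
      _ = p ^ (z % m).toNat := zpow_natCast p _

theorem orb_min {n : ℕ} (p : Equiv.Perm (Fin n)) (m : ℕ) (hm : 0 < m) (hp : p ^ m = 1) :
    orbs (Subgroup.zpowers p) =
      (Finset.univ.filter fun i : Fin n => ∀ k ∈ Finset.range m, i ≤ (p ^ k) i).card := by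
  have horb : ∀ x y : Fin n, x ∈ MulAction.orbit (Subgroup.zpowers p) y ↔ ∃ k < m, (p ^ k) y = x := by
    intro x y
    rw [mem_orbit_zpowers_iff]
    constructor
    · rintro ⟨z, hz⟩
      obtain ⟨k, hk, h⟩ := zred p m hm hp z
      exact ⟨k, hk, by rw [← h]; exact hz⟩
    · rintro ⟨k, _, h⟩
      exact ⟨k, by rw [zpow_natCast]; exact h⟩
  unfold orbs
  rw [← Fintype.card_subtype, ← Nat.card_eq_fintype_card]
  symm
  refine Nat.card_eq_of_bijective (fun i : {i : Fin n // ∀ k ∈ Finset.range m, i ≤ (p ^ k) i} =>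
    (Quotient.mk (MulAction.orbitRel (Subgroup.zpowers p) (Fin n)) i.1 :
      MulAction.orbitRel.Quotient (Subgroup.zpowers p) (Fin n))) ⟨?_, ?_⟩
  · intro i j h
    have h1 : i.1 ∈ MulAction.orbit (Subgroup.zpowers p) j.1 := Quotient.exact h
    have h2 : j.1 ∈ MulAction.orbit (Subgroup.zpowers p) i.1 := Quotient.exact h.symm
    obtain ⟨k, hk, h3⟩ := (horb _ _).1 h1
    obtain ⟨l, hl, h4⟩ := (horb _ _).1 h2
    apply Subtype.ext
    refine le_antisymm ?_ ?_
    · rw [← h4]
      exact i.2 l (Finset.mem_range.2 hl)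
    · rw [← h3]
      exact j.2 k (Finset.mem_range.2 hk)
  · intro q
    obtain ⟨x, rfl⟩ := Quotient.mk_surjective q
    obtain ⟨k, hk, hmin⟩ := Finset.exists_min_image (Finset.range m) (fun k => (p ^ k) x)
      ⟨0, Finset.mem_range.2 hm⟩
    refine ⟨⟨(p ^ k) x, ?_⟩, ?_⟩
    · intro l _
      have h1 : (p ^ l) ((p ^ k) x) ∈ MulAction.orbit (Subgroup.zpowers p) x := by
        rw [mem_orbit_zpowers_iff]
        refine ⟨((l + k : ℕ) : ℤ), ?_⟩
        rw [zpow_natCast, pow_add, Equiv.Perm.mul_apply]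
      obtain ⟨j, hj, h2⟩ := (horb _ _).1 h1
      rw [← h2]
      exact hmin j (Finset.mem_range.2 hj)
    · refine Quotient.sound ?_
      change (p ^ k) x ∈ MulAction.orbit (Subgroup.zpowers p) x
      rw [mem_orbit_zpowers_iff]
      exact ⟨k, by rw [zpow_natCast]⟩

private def v2 (i : Fin 6) : Finset (Fin 4) :=
  if i = 0 then {0, 1} else if i = 1 then {0, 2} else if i = 2 then {0, 3}
  else if i = 3 then {1, 2} else if i = 4 then {1, 3} else {2, 3}

private def w2 (s : Finset (Fin 4)) : Fin 6 :=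
  if 0 ∈ s then (if 1 ∈ s then 0 else if 2 ∈ s then 1 else 2)
  else if 1 ∈ s then (if 2 ∈ s then 3 else 4) else 5

private theorem v2_card : ∀ i, (v2 i).card = 2 := by decide +kernel

private theorem w2_v2 : ∀ i, w2 (v2 i) = i := by decide +kernel

private theorem v2_w2 : ∀ s : Finset (Fin 4), s.card = 2 → v2 (w2 s) = s := by decide +kernel

private def e0 : Fin 6 ≃ S2 where
  toFun i := ⟨v2 i, v2_card i⟩
  invFun s := w2 s.1
  left_inv := w2_v2
  right_inv s := Subtype.ext (v2_w2 s.1 s.2)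

private def FF (g : Equiv.Perm (Fin 4)) (i : Fin 6) : Fin 6 := w2 ((v2 i).map g.toEmbedding)

private theorem r6_FF (g : Equiv.Perm (Fin 4)) (i : Fin 6) : r6 e0 g i = FF g i := by
  apply e0.injective
  rw [r6_val]
  exact (e0.apply_symm_apply (act2 g (e0 i))).symm

private theorem r6_pow (g : Equiv.Perm (Fin 4)) (k : ℕ) (i : Fin 6) : (r6 e0 g ^ k) i = (FF g)^[k] i := by
  have h1 : (r6 e0 g : Fin 6 → Fin 6) = FF g := funext (r6_FF g)
  rw [← Equiv.Perm.iterate_eq_pow, h1]

private def n6 (g : Equiv.Perm (Fin 4)) : ℕ :=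
  (Finset.univ.filter fun i : Fin 6 => ∀ k ∈ Finset.range 12, i ≤ (FF g)^[k] i).card

private def PP (g : Equiv.Perm (Fin 4)) (i : Fin 3) : Fin 3 := dn (g * dt i * g⁻¹)

private def n3 (g : Equiv.Perm (Fin 4)) : ℕ :=
  (Finset.univ.filter fun i : Fin 3 => ∀ k ∈ Finset.range 12, i ≤ (PP g)^[k] i).card

private theorem p12 : ∀ g : Equiv.Perm (Fin 4), g ^ 12 = 1 := by decide +kernel

private theorem o6 (g : Equiv.Perm (Fin 4)) : orbs (Subgroup.zpowers (r6 e0 g)) = n6 g := by
  rw [orb_min (r6 e0 g) 12 (by norm_num) (by rw [← map_pow, p12, map_one])]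
  unfold n6
  simp only [r6_pow]

private theorem o3 (g : Equiv.Perm (Fin 4)) : orbs (Subgroup.zpowers (pi4 g)) = n3 g := by
  have h1 : ∀ (k : ℕ) (i : Fin 3), (pi4 g ^ k) i = (PP g)^[k] i := by
    intro k i
    rw [← Equiv.Perm.iterate_eq_pow]
    rfl
  rw [orb_min (pi4 g) 12 (by norm_num) (by rw [← map_pow, p12, map_one])]
  unfold n3
  simp only [h1]

private theorem o6' (e : Fin 6 ≃ S2) (g : Equiv.Perm (Fin 4)) :
    orbs (Subgroup.zpowers (r6 e g)) = n6 g := by
  rw [← o6]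
  let c : Equiv.Perm (Fin 6) := e.trans e0.symm
  have hc : ∀ i, e0 (c i) = e i := fun i => e0.apply_symm_apply (e i)
  have h1 : r6 e0 g = c * r6 e g * c⁻¹ := by
    rw [eq_mul_inv_iff_mul_eq]
    ext i : 1
    apply e0.injective
    rw [Equiv.Perm.mul_apply, Equiv.Perm.mul_apply, r6_val, hc, hc, r6_val]
  rw [h1, orbs_conj]

private def Hb (g : Equiv.Perm (Fin 4)) : Prop :=
  ∃ k ∈ Finset.range 12, g ^ k ≠ 1 ∧ ∀ i, pi4 (g ^ k) i = i

private instance (g : Equiv.Perm (Fin 4)) : Decidable (Hb g) := by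
  unfold Hb
  infer_instance

private theorem tab_dec : ∀ g : Equiv.Perm (Fin 4),
    6 - n6 g = 2 * (3 - n3 g) + 2 * (if Hb g then 1 else 0) := by
  decide +kernel

private theorem ind_dec : ∀ g : Equiv.Perm (Fin 4), g ≠ 1 →
    (6 - n6 g = 2 ∨ 6 - n6 g = 4) ∧ (6 - n6 g = 2 ↔ g ^ 2 = 1) := by
  decide +kernel

/-- `⟨g⟩` contains a double transposition -/
def Hd {G : Type} [Group G] (pi : G →* Equiv.Perm (Fin 3)) (g : G) : Prop :=
  ∃ x ∈ Subgroup.zpowers g, x ≠ 1 ∧ pi x = 1

private theorem hd_iff (g : Equiv.Perm (Fin 4)) : Hd pi4 g ↔ Hb g := by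
  constructor
  · rintro ⟨x, hx, hx1, hx2⟩
    obtain ⟨z, rfl⟩ := Subgroup.mem_zpowers_iff.1 hx
    obtain ⟨k, hk, h⟩ := zred g 12 (by norm_num) (p12 g) z
    rw [h] at hx1 hx2
    exact ⟨k, Finset.mem_range.2 hk, hx1, fun i => by rw [hx2, Equiv.Perm.one_apply]⟩
  · rintro ⟨k, _, h1, h2⟩
    exact ⟨g ^ k, Subgroup.npow_mem_zpowers g k, h1, Equiv.ext h2⟩

theorem tab4 (e : Fin 6 ≃ S2) (g : Equiv.Perm (Fin 4)) :
    6 - orbs (Subgroup.zpowers (r6 e g)) =
      2 * (3 - orbs (Subgroup.zpowers (pi4 g))) + 2 * (if Hd pi4 g then 1 else 0) := by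
  rw [o6', o3, tab_dec g]
  congr 2
  exact if_congr (hd_iff g).symm rfl rfl

theorem tabG (e : Fin 6 ≃ S2) (x : G6 e) :
    6 - orbs ((Subgroup.zpowers x).map (G6 e).subtype) =
      2 * (3 - orbs (Subgroup.zpowers (p6 e x))) + 2 * (if Hd (p6 e) x then 1 else 0) := by
  have h1 : (Subgroup.zpowers x).map (G6 e).subtype =
      Subgroup.zpowers (r6 e ((g6e e).symm x)) := by
    rw [MonoidHom.map_zpowers]
    have h2 : (G6 e).subtype x = r6 e ((g6e e).symm x) := by
      rw [← g6e_val, MulEquiv.apply_symm_apply]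
      rfl
    rw [h2]
  have h3 : Hd (p6 e) x ↔ Hd pi4 ((g6e e).symm x) := by
    constructor
    · rintro ⟨y, hy, hy1, hy2⟩
      obtain ⟨k, rfl⟩ := Subgroup.mem_zpowers_iff.1 hy
      refine ⟨(g6e e).symm (x ^ k), ?_, ?_, hy2⟩
      · rw [map_zpow]
        exact Subgroup.zpow_mem_zpowers _ k
      · intro h
        exact hy1 ((map_eq_one_iff _ (g6e e).symm.injective).1 h)
    · rintro ⟨y, hy, hy1, hy2⟩
      obtain ⟨k, rfl⟩ := Subgroup.mem_zpowers_iff.1 hy
      rw [← map_zpow] at hy1 hy2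
      refine ⟨x ^ k, Subgroup.zpow_mem_zpowers x k, ?_, hy2⟩
      intro h
      exact hy1 (by rw [h, map_one])
  rw [h1, tab4 e ((g6e e).symm x)]
  have h4 : pi4 ((g6e e).symm x) = p6 e x := rfl
  rw [h4]
  congr 2
  exact if_congr h3.symm rfl rfl

/-- for `indG` and `beta` -/
theorem tab_ind (e : Fin 6 ≃ S2) (g : Equiv.Perm (Fin 4)) (hg : g ≠ 1) :
    (H38.ML.ind (r6 e g) = 2 ∨ H38.ML.ind (r6 e g) = 4) ∧ (H38.ML.ind (r6 e g) = 2 ↔ g ^ 2 = 1) := by
  unfold H38.ML.ind
  rw [o6']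
  exact ind_dec g hg

end H38.SE
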