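import Pool.Agent.H38.SE.Chc
import Pool.Agent.H38.SE.Nds
import Pool.Agent.H38.SE.Tab
import Pool.Agent.H48.KV.Dsc
import Pool.Agent.H38.BG.TCyc

/-!
# [H38 SE DIS] the discriminant, 150-230 lines. File Pool/Agent/H38/SE/Dis.lean

Similar: `adi` in Pool/Agent/H38/EN/Adi.lean, `dsc_out`, `dsc_form` in Pool/Agent/H48/KV/Dsc.lean (read them first).
* `dis_out`: for `v ∉ S` the exponent of `v` in the discriminant of `fieldOf i₀ φ` is `n - orbs(image of the inertia group)`: the first part of the proof of `dsc_out` (`cdb_ldx_add`, `embOrb_le`, `embOrb_ge`, `small_field`); `htm` is used there only to rewrite the result.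
* `dis6`: `L = fieldOf i₀ φ` (`n = 6`, `G = G6 e`), `F = F0 χ = fieldOf 0 (chT χ)` (`n = 3`, `⊤`), `χ = p6 e ∘ φ` (in `Ch K`: `ft_comp`, `p6_sj`). `ds φ = Nat.pair (∏_{v ∈ S} nm v ^ ldx K L v) (∏_{v ∈ S} nm v ^ ldx K F v)` (with `if h : NumberField ..` as in `dsc_form`). `LocInv`: `dsc_conj` for `L` and for `F` (`χ σ = p δ χ' σ (p δ)⁻¹`, `p = p6 e`).
  For `v ∉ S` (so `v` does not contain `720`; the order of the inertia image divides 24) the inertia image is cyclic, generated by some `φ τ` (`H38.BG.cyc`, see `adi`), the image for `χ` is generated by `p6 e (φ τ)`: by `dis_out` and `tabG`: `ldx K L v = 2 ldx K F v + 2 [v ∈ qs]` (`Hd (p6 e) (φ τ)` iff `v ∈ qs`: the elements of `zpowers (φ τ)` are the `φ σ`, `σ` in inertia). In `orbs` for `F`: `(J.map (chT χ)).map (⊤).subtype = J.map χ`.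
  `T` = the ramified primes of `φ` outside `S` (finite, `rmF`), contains `qf`; `ldx_prod` for `L` and `F` with `S ∪ T`: `relDisc L = d₁ ∏_T nm^(ldx L)`, `relDisc F = d₂ ∏_T nm^(ldx F)`, so `relDisc L * d₂ ^ 2 = d₁ * (relDisc F * ∏_{qf} nm) ^ 2` (`nr (qf ..) = ∏ nm`; `dD χ = relDisc F` by definition).
-/

set_option autoImplicit false

open scoped NumberField Classical
open IsDedekindDomain H38.ML H63.MA H67.SX H48.KV

noncomputable section

namespace H38.SE

open H38.AS H38.BG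

theorem dis_out {n : ℕ} (G : Subgroup (Equiv.Perm (Fin n)))
    (hG : MulAction.IsPretransitive G (Fin n)) (K : IntermediateField ℚ QBar) [NumberField K]
    (S : Finset (Pl K)) (hS : ∀ v : Pl K, ((n.factorial : ℕ) : 𝓞 K) ∈ v.asIdeal → v ∈ S)
    (Q : DP K QBar) (i₀ : Fin n) (φ : Gal(QBar/K) →* G) (hφ : Function.Surjective φ) (hft : FT φ)
    [NumberField (fieldOf i₀ φ)] (v : Pl K) (hv : v ∉ S) :
    ldx K (fieldOf i₀ φ) v =
      n - orbs ((((Q.P v).inertia Gal(QBar/K)).map φ).map G.subtype) := by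
  classical
  obtain ⟨hfd, hdeg, -, hemb⟩ := small_field G hG K i₀ φ hφ hft
  have hvm : v.asIdeal.IsMaximal := v.isMaximal
  have : Fintype (v.asIdeal.primesOver (𝓞 (fieldOf i₀ φ))) :=
    Set.Finite.fintype (IsDedekindDomain.primesOver_finite v.asIdeal (𝓞 (fieldOf i₀ φ)))
  have h1 := cdb_ldx_add K (fieldOf i₀ φ) v (by
    rw [hdeg]
    exact fun h => hv (hS v h))
  rw [hdeg] at h1
  have h2 := embOrb_le (fieldOf i₀ φ) v.asIdeal v.isPrime v.ne_bot (Q.P v) (Q.prime v) (Q.under v)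
  have h2' := embOrb_ge (fieldOf i₀ φ) v.asIdeal v.isPrime v.ne_bot (Q.P v) (Q.prime v) (Q.under v)
  rw [hemb] at h2 h2'
  omega

variable {K : IntermediateField ℚ QBar} [NumberField K]

private theorem d6_card (e : Fin 6 ≃ S2) : Nat.card (G6 e) = 24 := by
  rw [← Nat.card_congr (g6e e).toEquiv, Nat.card_perm, Nat.card_fin]
  rfl

private theorem d6_loc (e : Fin 6 ≃ S2) (S : Finset (Pl K))
    (hS : ∀ v : Pl K, (((6 : ℕ).factorial : ℕ) : 𝓞 K) ∈ v.asIdeal → v ∈ S) (Q : DP K QBar)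
    (i₀ : Fin 6) (φ : Gal(QBar/K) →* G6 e) (hft : FT φ) (hφ : Function.Surjective φ)
    (hχ : FT (chT ((p6 e).comp φ))) (hχs : Function.Surjective (chT ((p6 e).comp φ)))
    [NumberField (fieldOf i₀ φ)] [NumberField (fieldOf (0 : Fin 3) (chT ((p6 e).comp φ)))]
    (v : Pl K) (hv : v ∉ S) :
    ldx K (fieldOf i₀ φ) v = 2 * ldx K (fieldOf (0 : Fin 3) (chT ((p6 e).comp φ))) v +
      2 * (if v ∈ qs (p6 e) Q S φ then 1 else 0) := by
  have hmul : ∀ m : ℕ, m ∣ 720 → ((m : ℕ) : 𝓞 K) ∈ v.asIdeal → v ∈ S := by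
    rintro m ⟨r, hr⟩ h
    apply hS
    have h1 : (6 : ℕ).factorial = m * r := by
      rw [← hr]
      rfl
    rw [h1, Nat.cast_mul]
    exact Ideal.mul_mem_right _ _ h
  have hfin : Finite (G6 e) := inferInstance
  have hc : ((Nat.card (((Q.P v).inertia Gal(QBar/K)).map φ) : ℕ) : 𝓞 K) ∉ v.asIdeal := by
    intro h
    refine hv (hmul _ ?_ h)
    refine (Subgroup.card_subgroup_dvd_card _).trans ?_
    rw [d6_card]
    norm_num
  obtain ⟨τ, hτ, hcy⟩ := H38.BG.cyc v (Q.P v) (Q.prime v) (Q.under v) φ hft hc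
  have hJ : ((Q.P v).inertia Gal(QBar/K)).map φ = Subgroup.zpowers (φ τ) := by
    apply le_antisymm
    · rintro _ ⟨σ, hσ, rfl⟩
      exact hcy σ hσ
    · rw [Subgroup.zpowers_le]
      exact ⟨τ, hτ, rfl⟩
  have hJ3 : (((Q.P v).inertia Gal(QBar/K)).map (chT ((p6 e).comp φ))).map
      (⊤ : Subgroup (Equiv.Perm (Fin 3))).subtype = Subgroup.zpowers (p6 e (φ τ)) := by
    have h1 : ((⊤ : Subgroup (Equiv.Perm (Fin 3))).subtype).comp (chT ((p6 e).comp φ)) =
        (p6 e).comp φ := by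
      ext σ : 1
      rfl
    rw [Subgroup.map_map, h1, ← Subgroup.map_map, hJ, MonoidHom.map_zpowers]
  rw [dis_out (G6 e) (g6_tr e) K S hS Q i₀ φ hφ hft v hv,
    dis_out (⊤ : Subgroup (Equiv.Perm (Fin 3))) cht_tr K S (fun w hw => ?_) Q 0
      (chT ((p6 e).comp φ)) hχs hχ v hv, hJ, hJ3, tabG e (φ τ)]
  · congr 2
    have hiff : Hd (p6 e) (φ τ) ↔ v ∈ qs (p6 e) Q S φ := by
      constructor
      · rintro ⟨x, hx, hx1, hx2⟩
        rw [← hJ] at hx
        obtain ⟨σ, hσ, rfl⟩ := hx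
        exact ⟨hv, σ, hσ, hx1, hx2⟩
      · rintro ⟨-, σ, hσ, hx1, hx2⟩
        exact ⟨φ σ, hcy σ hσ, hx1, hx2⟩
    by_cases hq : v ∈ qs (p6 e) Q S φ
    · rw [if_pos hq, if_pos (hiff.2 hq)]
    · rw [if_neg hq, if_neg (fun h => hq (hiff.1 h))]
  · apply hS
    have h1 : (6 : ℕ).factorial = (3 : ℕ).factorial * 120 := rfl
    rw [h1, Nat.cast_mul]
    exact Ideal.mul_mem_right _ _ hw

theorem dis6 (e : Fin 6 ≃ S2) (S : Finset (Pl K))
    (hS : ∀ v : Pl K, (((6 : ℕ).factorial : ℕ) : 𝓞 K) ∈ v.asIdeal → v ∈ S) (Q : DP K QBar) (i₀ : Fin 6) :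
    ∃ ds : (Gal(QBar/K) →* G6 e) → ℕ, H48.T3.LocInv Q S ds ∧
      ∀ φ : Gal(QBar/K) →* G6 e, FT φ → Function.Surjective φ →
        0 < (ds φ).unpair.1 ∧ 0 < (ds φ).unpair.2 ∧
        (H38.ML.relDisc K (fieldOf i₀ φ) : ℝ) * ((ds φ).unpair.2 : ℝ) ^ 2 =
          (ds φ).unpair.1 * (dD ((p6 e).comp φ) * nr (qf (p6 e) Q S φ)) ^ 2 := by
  classical
  have hχ : ∀ φ : Gal(QBar/K) →* G6 e, FT φ → Function.Surjective φ →
      FT (chT ((p6 e).comp φ)) ∧ Function.Surjective (chT ((p6 e).comp φ)) := by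
    intro φ hft hφ
    refine cht_ft (χ := (p6 e).comp φ) ⟨H38.ML.ft_comp (p6 e) φ hft, ?_⟩
    rw [MonoidHom.coe_comp]
    exact (p6_sj e).comp hφ
  refine ⟨fun φ => Nat.pair
    (if h : NumberField (fieldOf i₀ φ) then ∏ v ∈ S, nm v ^ ldx K (fieldOf i₀ φ) v else 1)
    (if h : NumberField (fieldOf (0 : Fin 3) (chT ((p6 e).comp φ))) then
      ∏ v ∈ S, nm v ^ ldx K (fieldOf (0 : Fin 3) (chT ((p6 e).comp φ))) v else 1), ?_, ?_⟩
  · intro φ φ' hφ hft hφ' hft' hT
    obtain ⟨hfd, -, -, -⟩ := small_field (G6 e) (g6_tr e) K i₀ φ hφ hft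
    obtain ⟨hfd', -, -, -⟩ := small_field (G6 e) (g6_tr e) K i₀ φ' hφ' hft'
    have hnf : NumberField (fieldOf i₀ φ) := NumberField.of_module_finite K (fieldOf i₀ φ)
    have hnf' : NumberField (fieldOf i₀ φ') := NumberField.of_module_finite K (fieldOf i₀ φ')
    obtain ⟨h1, h2⟩ := hχ φ hft hφ
    obtain ⟨h1', h2'⟩ := hχ φ' hft' hφ'
    obtain ⟨hgd, -, -, -⟩ := small_field (⊤ : Subgroup (Equiv.Perm (Fin 3))) cht_tr K 0
      (chT ((p6 e).comp φ)) h2 h1
    obtain ⟨hgd', -, -, -⟩ := small_field (⊤ : Subgroup (Equiv.Perm (Fin 3))) cht_tr K 0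
      (chT ((p6 e).comp φ')) h2' h1'
    have hng : NumberField (fieldOf (0 : Fin 3) (chT ((p6 e).comp φ))) :=
      NumberField.of_module_finite K _
    have hng' : NumberField (fieldOf (0 : Fin 3) (chT ((p6 e).comp φ'))) :=
      NumberField.of_module_finite K _
    simp only [dif_pos hnf, dif_pos hnf', dif_pos hng, dif_pos hng']
    congr 1
    · refine Finset.prod_congr rfl fun v hv => ?_
      congr 1
      obtain ⟨δ, hδ⟩ := hT v hv
      exact dsc_conj (by norm_num) (G6 e) (g6_tr e) K Q i₀ φ φ' hφ hft hφ' hft' v δ hδ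
    · refine Finset.prod_congr rfl fun v hv => ?_
      congr 1
      obtain ⟨δ, hδ⟩ := hT v hv
      refine dsc_conj (by norm_num) (⊤ : Subgroup (Equiv.Perm (Fin 3))) cht_tr K Q 0
        (chT ((p6 e).comp φ)) (chT ((p6 e).comp φ')) h2 h1 h2' h1' v ⟨p6 e δ, Subgroup.mem_top _⟩ ?_
      intro σ hσ
      apply Subtype.ext
      rw [Subgroup.coe_mul, Subgroup.coe_mul, Subgroup.coe_inv, cht_val, cht_val,
        MonoidHom.comp_apply, MonoidHom.comp_apply, hδ σ hσ, map_mul, map_mul, map_inv]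
  · intro φ hft hφ
    obtain ⟨hfd, -, -, -⟩ := small_field (G6 e) (g6_tr e) K i₀ φ hφ hft
    have hnf : NumberField (fieldOf i₀ φ) := NumberField.of_module_finite K (fieldOf i₀ φ)
    obtain ⟨h1, h2⟩ := hχ φ hft hφ
    obtain ⟨hgd, -, -, -⟩ := small_field (⊤ : Subgroup (Equiv.Perm (Fin 3))) cht_tr K 0
      (chT ((p6 e).comp φ)) h2 h1
    have hng : NumberField (fieldOf (0 : Fin 3) (chT ((p6 e).comp φ))) :=
      NumberField.of_module_finite K _
    have hloc := fun v hv => d6_loc e S hS Q i₀ φ hft hφ h1 h2 v hv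
    simp only [dif_pos hnf, dif_pos hng, Nat.unpair_pair]
    refine ⟨Finset.prod_pos fun v _ => Nat.pow_pos (by have := one_lt_nm v; omega),
      Finset.prod_pos fun v _ => Nat.pow_pos (by have := one_lt_nm v; omega), ?_⟩
    have hrL : H38.ML.relDisc K (fieldOf i₀ φ) =
        Ideal.absNorm (differentIdeal (𝓞 K) (𝓞 (fieldOf i₀ φ))) := by
      unfold H38.ML.relDisc
      rw [dif_pos hnf]
    have hrF : dD ((p6 e).comp φ) =
        Ideal.absNorm (differentIdeal (𝓞 K) (𝓞 (fieldOf (0 : Fin 3) (chT ((p6 e).comp φ))))) := by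
      unfold dD
      rw [← cht_fd]
      unfold H38.ML.relDisc
      rw [dif_pos hng]
    obtain ⟨hL1, hL2⟩ := ldx_prod K (fieldOf i₀ φ)
    obtain ⟨hF1, hF2⟩ := ldx_prod K (fieldOf (0 : Fin 3) (chT ((p6 e).comp φ)))
    obtain ⟨T, hT⟩ : ∃ T : Finset (Pl K), T =
        (hL1.toFinset ∪ hF1.toFinset ∪ qf (p6 e) Q S φ).filter fun v => v ∉ S := ⟨_, rfl⟩
    have hTS : ∀ v ∈ T, v ∉ S := fun v hv => by
      rw [hT, Finset.mem_filter] at hv
      exact hv.2
    have hdisj : Disjoint S T := by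
      rw [Finset.disjoint_left]
      intro v hv hvT
      exact hTS v hvT hv
    have hqT : qf (p6 e) Q S φ ⊆ T := by
      intro v hv
      rw [hT, Finset.mem_filter, Finset.mem_union]
      exact ⟨Or.inr hv, ((qf_mem (p6 e) Q S φ hft v).1 hv).1⟩
    rw [hrL, hrF, hL2 (S ∪ T) ?_, hF2 (S ∪ T) ?_, Finset.prod_union hdisj, Finset.prod_union hdisj]
    · have hnr : nr (qf (p6 e) Q S φ) =
          ∏ v ∈ T, (nm v : ℝ) ^ (if v ∈ qs (p6 e) Q S φ then 1 else 0) := by
        unfold nr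
        rw [← Finset.prod_subset hqT (fun v _ hv => ?_)]
        · refine Finset.prod_congr rfl fun v hv => ?_
          rw [if_pos ((qf_mem (p6 e) Q S φ hft v).1 hv), pow_one]
        · rw [if_neg (fun h => hv ((qf_mem (p6 e) Q S φ hft v).2 h)), pow_zero]
      have hTL : ∏ v ∈ T, (nm v : ℝ) ^ ldx K (fieldOf i₀ φ) v =
          (∏ v ∈ T, (nm v : ℝ) ^ ldx K (fieldOf (0 : Fin 3) (chT ((p6 e).comp φ))) v) ^ 2 *
            (∏ v ∈ T, (nm v : ℝ) ^ (if v ∈ qs (p6 e) Q S φ then 1 else 0)) ^ 2 := by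
        rw [← Finset.prod_pow, ← Finset.prod_pow, ← Finset.prod_mul_distrib]
        refine Finset.prod_congr rfl fun v hv => ?_
        rw [hloc v (hTS v hv), pow_add, mul_comm 2, mul_comm 2, pow_mul, pow_mul]
      rw [hnr]
      push_cast
      rw [hTL]
      ring
    · intro v hv
      rw [Finset.mem_union]
      by_cases hv0 : v ∈ S
      · exact Or.inl hv0
      · right
        rw [hT, Finset.mem_filter, Finset.mem_union, Finset.mem_union, Set.Finite.mem_toFinset,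
          Set.Finite.mem_toFinset]
        exact ⟨Or.inl (Or.inr hv), hv0⟩
    · intro v hv
      rw [Finset.mem_union]
      by_cases hv0 : v ∈ S
      · exact Or.inl hv0
      · right
        rw [hT, Finset.mem_filter, Finset.mem_union, Finset.mem_union, Set.Finite.mem_toFinset,
          Set.Finite.mem_toFinset]
        exact ⟨Or.inl (Or.inl hv), hv0⟩

end H38.SE
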