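import Mathlib

/-!
# [H38 SE EAB] partial summation (pure analysis), 70-120 lines. File Pool/Agent/H38/SE/Eab.lean

`S n = ∑_{k ∈ range (n + 1)} b k`. Abel summation (`Finset.sum_range_by_parts`, or induction on `n`): `∑_{k = 1}^n b k / k = (S n - S 0) / n + ∑_{k = 1}^{n - 1} (S k - S 0) / (k (k + 1))`. With `S k / k → a`: `(S k - S 0) / (k (k + 1)) = a / (k + 1) + o(1 / (k + 1))`, so the sum is `a H_n + o(H_n)` (`Asymptotics.IsLittleO.sum_range`: `f = o(g)`, `g ≥ 0`, `∑ g → ∞` give `∑ f = o(∑ g)`; `∑ 1 / (k + 1)` diverges), and `H_n / log n → 1`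
(Mathlib: `Real.tendsto_harmonic_sub_log`, or `log (n + 1) ≤ H_n ≤ 1 + log n`: `log_add_one_le_harmonic`, `harmonic_le_one_add_log`). `(S n - S 0) / n` is bounded, so `/ log n → 0`. (For `k = 0`: `b 0 / 0 = 0` in Lean.)
-/

set_option autoImplicit false

open Filter Topology

noncomputable section

namespace H38.SE

private theorem eab_abel (b : ℕ → ℝ) (n : ℕ) :
    ∑ k ∈ Finset.range (n + 1 + 1), b k / (k : ℝ) =
      ((∑ k ∈ Finset.range (n + 1 + 1), b k) - b 0) / ((n + 1 : ℕ) : ℝ) +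
        ∑ k ∈ Finset.range n, ((∑ j ∈ Finset.range (k + 1 + 1), b j) - b 0) / ((k + 1 : ℕ) : ℝ) * (1 / ((k : ℝ) + 2)) := by
  induction n with
  | zero => simp [Finset.sum_range_succ]
  | succ n ih =>
    rw [Finset.sum_range_succ, ih, Finset.sum_range_succ (fun k => b k) (n + 1 + 1),
      Finset.sum_range_succ (fun k => ((∑ j ∈ Finset.range (k + 1 + 1), b j) - b 0) / ((k + 1 : ℕ) : ℝ) * (1 / ((k : ℝ) + 2))) n]
    generalize ∑ k ∈ Finset.range (n + 1 + 1), b k = S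
    generalize ∑ k ∈ Finset.range n, ((∑ j ∈ Finset.range (k + 1 + 1), b j) - b 0) / ((k + 1 : ℕ) : ℝ) * (1 / ((k : ℝ) + 2)) = T
    have h1 : ((n : ℝ) + 1) ≠ 0 := by positivity
    have h2 : ((n : ℝ) + 2) ≠ 0 := by positivity
    push_cast
    have h3 : (n : ℝ) + 1 + 1 = n + 2 := by ring
    rw [h3]
    field_simp
    ring

private theorem eab_W : Tendsto (fun n : ℕ => (∑ k ∈ Finset.range n, (1 / ((k : ℝ) + 2))) - Real.log ((n + 1 : ℕ) : ℝ)) atTop
    (𝓝 (Real.eulerMascheroniConstant - 1)) := by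
  have h1 := (tendsto_add_atTop_iff_nat 1).2 Real.tendsto_harmonic_sub_log
  have h2 := h1.sub_const 1
  refine h2.congr fun n => ?_
  have h3 : ((harmonic (n + 1) : ℚ) : ℝ) = 1 + ∑ k ∈ Finset.range n, (1 / ((k : ℝ) + 2)) := by
    unfold harmonic
    rw [Finset.sum_range_succ']
    push_cast
    rw [add_comm]
    congr 1
    · simp
    · refine Finset.sum_congr rfl fun k _ => ?_
      rw [one_div, add_assoc]
      norm_num
  rw [h3]
  ring

theorem eab (b : ℕ → ℝ) (a : ℝ)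
    (h : Tendsto (fun n : ℕ => (∑ k ∈ Finset.range (n + 1), b k) / (n : ℝ)) atTop (𝓝 a)) :
    Tendsto (fun n : ℕ => (∑ k ∈ Finset.range (n + 1), b k / (k : ℝ)) / Real.log n) atTop (𝓝 a) := by
  rw [← tendsto_add_atTop_iff_nat 1]
  have hlog : Tendsto (fun n : ℕ => Real.log ((n + 1 : ℕ) : ℝ)) atTop atTop :=
    Real.tendsto_log_atTop.comp ((tendsto_add_atTop_iff_nat 1).2 tendsto_natCast_atTop_atTop)
  -- the averages
  have hc : Tendsto (fun k : ℕ => ((∑ j ∈ Finset.range (k + 1 + 1), b j) - b 0) / ((k + 1 : ℕ) : ℝ)) atTop (𝓝 a) := by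
    have h1 := (tendsto_add_atTop_iff_nat 1).2 h
    have h2 : Tendsto (fun k : ℕ => b 0 / ((k + 1 : ℕ) : ℝ)) atTop (𝓝 0) :=
      (tendsto_const_nhds).div_atTop ((tendsto_add_atTop_iff_nat 1).2 tendsto_natCast_atTop_atTop)
    have h3 := h1.sub h2
    rw [sub_zero] at h3
    refine h3.congr fun k => ?_
    rw [sub_div]
  have hW := eab_W
  set W : ℕ → ℝ := fun n => ∑ k ∈ Finset.range n, (1 / ((k : ℝ) + 2)) with hWdef
  have hW1 : Tendsto (fun n : ℕ => W n / Real.log ((n + 1 : ℕ) : ℝ)) atTop (𝓝 1) := by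
    have h1 := (hW.div_atTop hlog).add_const 1
    rw [zero_add] at h1
    refine h1.congr' ?_
    filter_upwards [hlog.eventually_gt_atTop 0] with n hn
    rw [sub_div, div_self hn.ne']
    ring
  have hWtop : Tendsto W atTop atTop := by
    have h1 := hW.add_atTop hlog
    refine h1.congr fun n => ?_
    ring
  -- the error
  have hlo : (fun k : ℕ => ((∑ j ∈ Finset.range (k + 1 + 1), b j) - b 0) / ((k + 1 : ℕ) : ℝ) * (1 / ((k : ℝ) + 2)) -
      a * (1 / ((k : ℝ) + 2))) =o[atTop] fun k : ℕ => 1 / ((k : ℝ) + 2) := by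
    have h1 : (fun k : ℕ => ((∑ j ∈ Finset.range (k + 1 + 1), b j) - b 0) / ((k + 1 : ℕ) : ℝ) - a) =o[atTop]
        fun _ : ℕ => (1 : ℝ) := by
      rw [Asymptotics.isLittleO_one_iff]
      have h2 := hc.sub_const a
      rwa [sub_self] at h2
    have h3 := h1.mul_isBigO (Asymptotics.isBigO_refl (fun k : ℕ => 1 / ((k : ℝ) + 2)) atTop)
    refine (h3.congr (fun k => ?_) (fun k => ?_))
    · rw [sub_mul]
    · rw [one_mul]
  have hsum := hlo.sum_range (fun k => by positivity) hWtop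
  have hE : Tendsto (fun n : ℕ => (∑ k ∈ Finset.range n,
      (((∑ j ∈ Finset.range (k + 1 + 1), b j) - b 0) / ((k + 1 : ℕ) : ℝ) * (1 / ((k : ℝ) + 2)) -
      a * (1 / ((k : ℝ) + 2)))) / W n) atTop (𝓝 0) := hsum.tendsto_div_nhds_zero
  have h1 := (hc.div_atTop hlog).add ((hE.mul hW1).add (hW1.const_mul a))
  rw [zero_mul, zero_add, mul_one, zero_add] at h1
  refine h1.congr' ?_
  filter_upwards [hlog.eventually_gt_atTop 0, hWtop.eventually_gt_atTop 0] with n hn hWn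
  rw [eab_abel b n, add_div]
  congr 1
  rw [Finset.sum_sub_distrib, ← Finset.mul_sum]
  have h4 : ∑ k ∈ Finset.range n, (1 / ((k : ℝ) + 2)) = W n := rfl
  rw [h4]
  generalize ∑ k ∈ Finset.range n, ((∑ j ∈ Finset.range (k + 1 + 1), b j) - b 0) / ((k + 1 : ℕ) : ℝ) * (1 / ((k : ℝ) + 2)) = T
  have hn' := hn.ne'
  have hWn' := hWn.ne'
  field_simp
  ring

end H38.SE
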