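import Pool.Agent.H38.SE.Defs

/-!
# [H38 SE EBL] one dyadic block of the middle range (pure analysis), 120-200 lines. File Pool/Agent/H38/SE/Ebl.lean

Similar: `blk` in Pool/Agent/H38/EN/Blk.lean (read it first). `R = 2 ^ (k + 1)`; `R₀` from `e.F2` with `B = 2`, `ε = 1/2`; `k₀` with `2 ^ (k₀ + 1) ≥ R₀`, `k₀ ≥ 1`. Let `J = {x | ∃ i ∈ T, x ∈ Z i ∧ (X / D i) / (log R)^2 < F x (X / D i)}`. `e.F2` (`D i ≤ R`, `Y = X / D i`): `J` is finite, `#J ≤ R ^ (1/2)`.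
By `e.E1` (`X / D i ≥ exp _ ≥ 1`: `log log R ≥ 0` because `R ≥ 4 > e`; so `D i ≤ X`) the sum is at most
`C #T + C ∑_{i ∈ T} ∑_{x ∈ Z i, x ∉ J} (X / D i) / (log R)^2 + C ∑_{i ∈ T} ∑_{x ∈ Z i, x ∈ J} F x (X / D i)`. First: `#T ≤ ∑ s i`. Second: `X / D i ≤ X / 2 ^ k`, `∑ #(Z i) ≤ C ∑_T s i ≤ C ^ 2 2 ^ (k + 1)` (`e.Zc`, `e.sm` with `R = 2 ^ (k + 1)`), so `≤ C ^ 3 2 X / (log R)^2`, and `log R = (k + 1) log 2 ≥ (k + 1) / 2`: `≤ 8 C ^ 3 X / (k + 1)^2`.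
Third: `e.FT`: `F x (X / D i) ≤ C (X / 2 ^ k) (1 + log X)^2 (1 + log X)^3` (`X / D i ≤ X`, `D i ≤ X`); the number of pairs `(i, x)`, `i ∈ T`, `x ∈ Z i ∩ J` is at most `3 #J` (exchange the sums, `e.Zm`), `#J ≤ 2 ^ ((k + 1) / 2)`, so `≤ 3 C ^ 2 X (1 + log X)^5 2 ^ ((k + 1) / 2 - k) ≤ 6 C ^ 2 X (1 + log X)^5 2 ^ (-k / 2)`.
-/

set_option autoImplicit false

open scoped NumberField Classical
open Filter Topology

noncomputable section

namespace H38.SE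

variable {ι α : Type}

private theorem pairs (e : EE ι α) (T : Finset ι) (hT : ∀ i ∈ T, i ∈ e.P) (J : Set α)
    (hJ : J.Finite) :
    ∑ i ∈ T, (((e.Z i).filter (fun x => x ∈ J)).card : ℝ) ≤ 3 * (J.ncard : ℝ) := by
  have h1 : ∀ i, (e.Z i).filter (fun x => x ∈ J) = hJ.toFinset.filter (fun x => x ∈ e.Z i) := by
    intro i
    ext x
    rw [Finset.mem_filter, Finset.mem_filter, Set.Finite.mem_toFinset, and_comm]
  have h2 : ∑ i ∈ T, ((e.Z i).filter (fun x => x ∈ J)).card ≤ 3 * J.ncard := by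
    calc ∑ i ∈ T, ((e.Z i).filter (fun x => x ∈ J)).card
        = ∑ i ∈ T, ∑ x ∈ hJ.toFinset, (if x ∈ e.Z i then 1 else 0) := by
          refine Finset.sum_congr rfl fun i _ => ?_
          rw [h1, Finset.card_filter]
      _ = ∑ x ∈ hJ.toFinset, ∑ i ∈ T, (if x ∈ e.Z i then 1 else 0) := Finset.sum_comm
      _ = ∑ x ∈ hJ.toFinset, (T.filter (fun i => x ∈ e.Z i)).card := by
          refine Finset.sum_congr rfl fun x _ => ?_
          rw [Finset.card_filter]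
      _ ≤ ∑ x ∈ hJ.toFinset, 3 := by
          refine Finset.sum_le_sum fun x _ => ?_
          refine e.Zm x _ fun i hi => ?_
          rw [Finset.mem_filter] at hi
          exact ⟨hT i hi.1, hi.2⟩
      _ = 3 * J.ncard := by
          rw [Finset.sum_const, smul_eq_mul, mul_comm, Set.ncard_eq_toFinset_card J hJ]
  exact_mod_cast h2

private theorem logs (k : ℕ) : ((k : ℝ) + 1) / 2 ≤ Real.log ((2 : ℝ) ^ (k + 1)) := by
  rw [Real.log_pow]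
  push_cast
  have h1 := Real.log_two_gt_d9
  have h3 : (0 : ℝ) ≤ (k : ℝ) := Nat.cast_nonneg k
  nlinarith

private theorem ratio (k : ℕ) : 1 / Real.log ((2 : ℝ) ^ (k + 1)) ^ 2 ≤ 4 / ((k : ℝ) + 1) ^ 2 := by
  have h1 := logs k
  have h3 : (0 : ℝ) < (k : ℝ) + 1 := by positivity
  obtain ⟨l, hl⟩ : ∃ l : ℝ, l = Real.log ((2 : ℝ) ^ (k + 1)) := ⟨_, rfl⟩
  rw [← hl] at h1 ⊢
  have h4 : 0 < l := by linarith
  rw [div_le_div_iff₀ (by positivity) (by positivity)]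
  have h6 : (((k : ℝ) + 1) / 2) ^ 2 ≤ l ^ 2 := pow_le_pow_left₀ (by positivity) h1 2
  linarith

theorem eblk (e : EE ι α) : ∃ (C' : ℝ) (k₀ : ℕ), 0 < C' ∧ ∀ k : ℕ, k₀ ≤ k → ∀ X : ℝ, 1 ≤ X →
    ∀ T : Finset ι, (∀ i ∈ T, i ∈ e.P ∧ 2 ^ k < e.D i ∧ e.D i ≤ 2 ^ (k + 1) ∧
      Real.exp (Real.log (Real.log ((2 : ℝ) ^ (k + 1))) ^ 3) ≤ X / e.D i) →
    ∑ i ∈ T, |e.N i (X / e.D i) - e.w i * (X / e.D i)| ≤
      C' * (∑ i ∈ T, e.s i + X / ((k : ℝ) + 1) ^ 2 +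
        X * (1 + Real.log X) ^ 5 * (2 : ℝ) ^ (-((k : ℝ) / 2))) := by
  obtain ⟨R₀, hR₀3, hF2⟩ := e.F2 2 (1 / 2) (by norm_num)
  obtain ⟨k₁, hk₁⟩ := pow_unbounded_of_one_lt R₀ (one_lt_two : (1 : ℝ) < 2)
  have hC1 := e.C1
  have hC0 : 0 < e.C := by linarith
  refine ⟨e.C + 8 * e.C ^ 3 + 6 * e.C ^ 2, k₁ + 1, by positivity, ?_⟩
  intro k hk X hX T hT
  have hX0 : 0 < X := by linarith
  obtain ⟨R, hR⟩ : ∃ R : ℝ, R = (2 : ℝ) ^ (k + 1) := ⟨_, rfl⟩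
  have hRk : R = 2 * (2 : ℝ) ^ k := by rw [hR, pow_succ]; ring
  have hmono : (2 : ℝ) ^ k₁ ≤ R := by
    rw [hR]
    exact pow_le_pow_right₀ one_le_two (by omega)
  have hRR₀ : R₀ ≤ R := hk₁.le.trans hmono
  have hR4 : 4 ≤ R := by
    rw [hR]
    calc (4 : ℝ) = 2 ^ 2 := by norm_num
      _ ≤ 2 ^ (k + 1) := pow_le_pow_right₀ one_le_two (by omega)
  have hR0 : 0 < R := by linarith
  have hlR : 1 ≤ Real.log R := by
    rw [Real.le_log_iff_exp_le hR0]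
    have := Real.exp_one_lt_d9
    linarith
  have hllR : 0 ≤ Real.log (Real.log R) := Real.log_nonneg hlR
  rw [← hR] at hT
  have hD1 : ∀ i ∈ T, (2 : ℝ) ^ k < (e.D i : ℝ) := by
    intro i hi
    exact_mod_cast (hT i hi).2.1
  have hD2 : ∀ i ∈ T, (e.D i : ℝ) ≤ R := by
    intro i hi
    rw [hR]
    exact_mod_cast (hT i hi).2.2.1
  have h2k : (1 : ℝ) ≤ 2 ^ k := one_le_pow₀ one_le_two
  have hD0 : ∀ i ∈ T, (1 : ℝ) ≤ (e.D i : ℝ) := fun i hi => h2k.trans (hD1 i hi).le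
  have hY1 : ∀ i ∈ T, 1 ≤ X / e.D i := by
    intro i hi
    refine le_trans ?_ (hT i hi).2.2.2
    rw [← Real.exp_zero]
    exact Real.exp_le_exp.2 (pow_nonneg hllR 3)
  have hDX : ∀ i ∈ T, (e.D i : ℝ) ≤ X := by
    intro i hi
    have h1 := hY1 i hi
    rwa [le_div_iff₀ (by linarith [hD0 i hi]), one_mul] at h1
  have hY2 : ∀ i ∈ T, X / e.D i ≤ 2 * X / R := by
    intro i hi
    rw [hRk, mul_div_mul_left _ _ (two_ne_zero)]
    exact div_le_div_of_nonneg_left hX0.le (by positivity) (hD1 i hi).le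
  have hYX : ∀ i ∈ T, X / e.D i ≤ X := by
    intro i hi
    exact div_le_self hX0.le (hD0 i hi)
  obtain ⟨J, hJdef⟩ : ∃ J : Set α, J = {x | (∃ i ∈ T, x ∈ e.Z i) ∧ ∃ Y : ℝ,
      Real.exp (Real.log (Real.log R) ^ 3) ≤ Y ∧ Y / Real.log R ^ 2 < e.F x Y} := ⟨_, rfl⟩
  obtain ⟨hJf, hJc⟩ := hF2 R hRR₀ J (by
    intro x hx
    rw [hJdef] at hx
    obtain ⟨⟨i, hi, hxi⟩, hY⟩ := hx
    exact ⟨⟨i, (hT i hi).1, hxi, hD2 i hi⟩, hY⟩)
  have hlX : 0 ≤ Real.log X := Real.log_nonneg hX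
  obtain ⟨a, ha⟩ : ∃ a : ℝ, a = 2 * X / R / Real.log R ^ 2 := ⟨_, rfl⟩
  obtain ⟨b, hb⟩ : ∃ b : ℝ, b = e.C * (2 * X / R) * (1 + Real.log X) ^ 2 * (1 + Real.log X) ^ 3 := ⟨_, rfl⟩
  have ha0 : 0 ≤ a := by rw [ha]; positivity
  have hb0 : 0 ≤ b := by rw [hb]; positivity
  -- bound of F
  have hF : ∀ i ∈ T, ∀ x ∈ e.Z i, e.F x (X / e.D i) ≤ a + (if x ∈ J then b else 0) := by
    intro i hi x hx
    by_cases hxJ : x ∈ J
    · rw [if_pos hxJ]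
      have h1 := e.FT i (hT i hi).1 x hx (X / e.D i) (hY1 i hi)
      have h2 : 0 ≤ Real.log (X / e.D i) := Real.log_nonneg (hY1 i hi)
      have h3 : Real.log (X / e.D i) ≤ Real.log X :=
        Real.log_le_log (by linarith [hY1 i hi]) (hYX i hi)
      have h5 : 0 ≤ Real.log (e.D i : ℝ) := Real.log_nonneg (hD0 i hi)
      have h6 : Real.log (e.D i : ℝ) ≤ Real.log X :=
        Real.log_le_log (by linarith [hD0 i hi]) (hDX i hi)
      have h4 : e.C * (X / e.D i) * (1 + Real.log (X / e.D i)) ^ 2 * (1 + Real.log (e.D i : ℝ)) ^ 3 ≤ b := by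
        rw [hb]
        have hYi := hY1 i hi
        refine mul_le_mul (mul_le_mul (mul_le_mul_of_nonneg_left (hY2 i hi) hC0.le)
          (pow_le_pow_left₀ (by linarith) (by linarith) 2) (by positivity) (by positivity))
          (pow_le_pow_left₀ (by linarith) (by linarith) 3) (by positivity) (by positivity)
      linarith
    · rw [if_neg hxJ, add_zero]
      have h1 : ¬ (X / e.D i / Real.log R ^ 2 < e.F x (X / e.D i)) := by
        intro h2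
        apply hxJ
        rw [hJdef]
        exact ⟨⟨i, hi, hx⟩, _, (hT i hi).2.2.2, h2⟩
      push Not at h1
      refine h1.trans ?_
      rw [ha]
      exact div_le_div_of_nonneg_right (hY2 i hi) (by positivity)
  have hE : ∀ i ∈ T, |e.N i (X / e.D i) - e.w i * (X / e.D i)| ≤ e.C + e.C * (a * ((e.Z i).card : ℝ) +
      b * (((e.Z i).filter (fun x => x ∈ J)).card : ℝ)) := by
    intro i hi
    have h1 := e.E1 i (hT i hi).1 (X / e.D i) (hY1 i hi)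
    have h2 : ∑ x ∈ e.Z i, e.F x (X / e.D i) ≤ a * ((e.Z i).card : ℝ) +
        b * (((e.Z i).filter (fun x => x ∈ J)).card : ℝ) := by
      refine (Finset.sum_le_sum (hF i hi)).trans (le_of_eq ?_)
      rw [Finset.sum_add_distrib, Finset.sum_const, nsmul_eq_mul, ← Finset.sum_filter,
        Finset.sum_const, nsmul_eq_mul, mul_comm a, mul_comm b]
    have h3 := mul_le_mul_of_nonneg_left h2 hC0.le
    linarith
  have hTP : ∀ i ∈ T, i ∈ e.P := fun i hi => (hT i hi).1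
  have hsum1 : (T.card : ℝ) ≤ ∑ i ∈ T, e.s i := by
    have h1 : ∑ i ∈ T, (1 : ℝ) ≤ ∑ i ∈ T, e.s i :=
      Finset.sum_le_sum fun i hi => e.s1 i (hTP i hi)
    simpa using h1
  have hsum2 : ∑ i ∈ T, ((e.Z i).card : ℝ) ≤ e.C * (e.C * R) := by
    have h1 : ∑ i ∈ T, ((e.Z i).card : ℝ) ≤ ∑ i ∈ T, e.C * e.s i :=
      Finset.sum_le_sum fun i hi => e.Zc i (hTP i hi)
    rw [← Finset.mul_sum] at h1
    have h2 := e.sm (2 ^ (k + 1)) T (fun i hi => ⟨hTP i hi, (hT i hi).2.2.1⟩)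
    have h3 : (((2 ^ (k + 1) : ℕ) : ℝ)) = R := by
      rw [hR]
      push_cast
      rfl
    rw [h3] at h2
    exact h1.trans (mul_le_mul_of_nonneg_left h2 hC0.le)
  have hsum3 : ∑ i ∈ T, (((e.Z i).filter (fun x => x ∈ J)).card : ℝ) ≤
      3 * R ^ (1 / 2 : ℝ) := (pairs e T hTP J hJf).trans (by linarith)
  have htot : ∑ i ∈ T, |e.N i (X / e.D i) - e.w i * (X / e.D i)| ≤ e.C * ∑ i ∈ T, e.s i +
      e.C * (a * (e.C * (e.C * R)) + b * (3 * R ^ (1 / 2 : ℝ))) := by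
    calc ∑ i ∈ T, |e.N i (X / e.D i) - e.w i * (X / e.D i)| ≤ ∑ i ∈ T, (e.C + e.C * (a * ((e.Z i).card : ℝ) +
          b * (((e.Z i).filter (fun x => x ∈ J)).card : ℝ))) := Finset.sum_le_sum hE
      _ = e.C * (T.card : ℝ) + e.C * (a * ∑ i ∈ T, ((e.Z i).card : ℝ) +
          b * ∑ i ∈ T, (((e.Z i).filter (fun x => x ∈ J)).card : ℝ)) := by
          rw [Finset.sum_add_distrib, Finset.sum_const, nsmul_eq_mul, ← Finset.mul_sum,
            Finset.sum_add_distrib, ← Finset.mul_sum, ← Finset.mul_sum]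
          ring
      _ ≤ _ := by
          have h1 := mul_le_mul_of_nonneg_left hsum1 hC0.le
          have h2 := mul_le_mul_of_nonneg_left hsum2 ha0
          have h3 := mul_le_mul_of_nonneg_left hsum3 hb0
          have h4 := mul_le_mul_of_nonneg_left (add_le_add h2 h3) hC0.le
          linarith
  have hA : e.C * (a * (e.C * (e.C * R))) ≤ 8 * e.C ^ 3 * (X / ((k : ℝ) + 1) ^ 2) := by
    have h1 := ratio k
    rw [← hR] at h1
    have h2 : e.C * (a * (e.C * (e.C * R))) = 2 * e.C ^ 3 * X * (1 / Real.log R ^ 2) := by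
      rw [ha]
      have : Real.log R ≠ 0 := by linarith
      field_simp
    rw [h2]
    calc 2 * e.C ^ 3 * X * (1 / Real.log R ^ 2) ≤ 2 * e.C ^ 3 * X * (4 / ((k : ℝ) + 1) ^ 2) :=
          mul_le_mul_of_nonneg_left h1 (by positivity)
      _ = 8 * e.C ^ 3 * (X / ((k : ℝ) + 1) ^ 2) := by ring
  have hRh : R ^ (1 / 2 : ℝ) / R ≤ (2 : ℝ) ^ (-((k : ℝ) / 2)) := by
    have h1 : R = (2 : ℝ) ^ ((k : ℝ) + 1) := by
      rw [hR, ← Real.rpow_natCast]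
      push_cast
      rfl
    have h2 : R ^ (1 / 2 : ℝ) / R = R ^ (-(1 / 2) : ℝ) := by
      rw [div_eq_iff hR0.ne', ← Real.rpow_add_one hR0.ne']
      norm_num
    rw [h2, h1, ← Real.rpow_mul (by norm_num)]
    apply Real.rpow_le_rpow_of_exponent_le (by norm_num)
    linarith
  have hB : e.C * (b * (3 * R ^ (1 / 2 : ℝ))) ≤
      6 * e.C ^ 2 * (X * (1 + Real.log X) ^ 5 * (2 : ℝ) ^ (-((k : ℝ) / 2))) := by
    have h1 : e.C * (b * (3 * R ^ (1 / 2 : ℝ))) =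
        6 * e.C ^ 2 * (X * (1 + Real.log X) ^ 5 * (R ^ (1 / 2 : ℝ) / R)) := by
      rw [hb]
      ring
    rw [h1]
    exact mul_le_mul_of_nonneg_left (mul_le_mul_of_nonneg_left hRh (by positivity)) (by positivity)
  have hs0 : 0 ≤ ∑ i ∈ T, e.s i := le_trans (Nat.cast_nonneg _) hsum1
  have hp1 : 0 ≤ X / ((k : ℝ) + 1) ^ 2 := by positivity
  have hp2 : 0 ≤ X * (1 + Real.log X) ^ 5 * (2 : ℝ) ^ (-((k : ℝ) / 2)) := by positivity
  obtain ⟨u, hu⟩ : ∃ u : ℝ, u = ∑ i ∈ T, e.s i := ⟨_, rfl⟩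
  obtain ⟨v, hv⟩ : ∃ v : ℝ, v = X / ((k : ℝ) + 1) ^ 2 := ⟨_, rfl⟩
  obtain ⟨w, hw⟩ : ∃ w : ℝ, w = X * (1 + Real.log X) ^ 5 *
    (2 : ℝ) ^ (-((k : ℝ) / 2)) := ⟨_, rfl⟩
  rw [← hu, ← hv, ← hw]
  rw [← hu] at htot hs0
  rw [← hv] at hA hp1
  rw [← hw] at hB hp2
  have hc2 : 0 ≤ e.C ^ 2 := by positivity
  have hc3 : 0 ≤ e.C ^ 3 := by positivity
  have f2 : 0 ≤ e.C * v := by positivity
  have f3 : 0 ≤ e.C * w := by positivity
  have f4 : 0 ≤ 8 * e.C ^ 3 * u := by positivity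
  have f5 : 0 ≤ 8 * e.C ^ 3 * w := by positivity
  have f6 : 0 ≤ 6 * e.C ^ 2 * u := by positivity
  have f7 : 0 ≤ 6 * e.C ^ 2 * v := by positivity
  calc ∑ i ∈ T, |e.N i (X / e.D i) - e.w i * (X / e.D i)| ≤ e.C * u +
      e.C * (a * (e.C * (e.C * R)) + b * (3 * R ^ (1 / 2 : ℝ))) := htot
    _ = e.C * u + (e.C * (a * (e.C * (e.C * R))) + e.C * (b * (3 * R ^ (1 / 2 : ℝ)))) := by ring
    _ ≤ e.C * u + (8 * e.C ^ 3 * v + 6 * e.C ^ 2 * w) := by linarith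
    _ ≤ _ := by
        have : (e.C + 8 * e.C ^ 3 + 6 * e.C ^ 2) * (u + v + w) =
          e.C * u + e.C * v + e.C * w + (8 * e.C ^ 3 * u + 8 * e.C ^ 3 * v +
          8 * e.C ^ 3 * w) + (6 * e.C ^ 2 * u + 6 * e.C ^ 2 * v + 6 * e.C ^ 2 * w) := by ring
        rw [this]
        linarith

end H38.SE
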