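import Pool.Agent.H38.SE.Ebl

/-!
# [H38 SE EMD] the middle range (pure analysis), 110-170 lines. File Pool/Agent/H38/SE/Emd.lean

Similar: `mid` in Pool/Agent/H38/EN/Mid.lean (read it first; copy its private lemmas `mid_tel`, `mid_kap`). `C₁, k₀` from `eblk`. `X₀ ≥ 3` so large that for `X ≥ X₀`: `2 ^ (k₀ + 2) ≤ X ^ η` and `(1 + log X)^5 ≤ X ^ (η / 2)` (`isLittleO_log_rpow_atTop` or `Real.isLittleO_pow_log_id_atTop`..). For `i ∈ T` let `κ i` be the natural number with `2 ^ κ < D i ≤ 2 ^ (κ + 1)` (`D i > X ^ η ≥ 4`); `κ ≥ k₀`, `κ ≥ 1`, and `2 ^ (κ + 1) ≥ D i > X ^ η`, so `2 ^ (-κ / 2) ≤ √2 X ^ (-η / 2)` for the least `κ`.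
`2 ^ (κ + 1) < 2 D i ≤ X`, so `exp ((log log 2 ^ (κ + 1))^3) ≤ exp ((log log X)^3) ≤ X / D i` (`log log ≥ 0`). `eblk` for every fibre of `κ` and sum over `κ ≥ k₁`, `k₁` = the least value of `κ` on `T` (or any `k₁ ≥ 1` with `k₁ ≤ κ i` and `2 ^ (-k₁ / 2) ≤ 2 X ^ (-η / 2)`, for instance `k₁ = ⌈η log X / log 2⌉₊ - 1`):
`∑_T s i ≤ C X` (`e.sm`, `D i ≤ ⌊X⌋₊`), `∑_{k ≥ 1} X / (k + 1)^2 ≤ X`, `∑_{k ≥ k₁} 2^(-k/2) ≤ 4 * 2^(-k₁/2) ≤ 8 X ^ (-η / 2)`, so the last sum is `≤ 8 X (1 + log X)^5 X ^ (-η / 2) ≤ 8 X`. Total `≤ C₁ (C + 9) X`.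
-/

set_option autoImplicit false

open scoped NumberField Classical
open Filter Topology

noncomputable section

namespace H38.SE

variable {ι α : Type}

/-- telescoping -/
private theorem mid_tel {f g : ℕ → ℝ} {k₁ : ℕ} (h : ∀ k, k₁ ≤ k → f k ≤ g k - g (k + 1)) (hg : ∀ k, 0 ≤ g k)
    (k₂ : ℕ) : ∑ k ∈ Finset.Ico k₁ k₂, f k ≤ g k₁ := by
  by_cases hk : k₁ ≤ k₂
  · have key : ∑ k ∈ Finset.Ico k₁ k₂, f k ≤ g k₁ - g k₂ := by
      induction k₂, hk using Nat.le_induction with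
      | base => simp
      | succ n hn ih =>
        rw [Finset.sum_Ico_succ_top hn]
        have := h n hn
        linarith
    linarith [hg k₂]
  · rw [Finset.Ico_eq_empty_of_le (by omega), Finset.sum_empty]
    exact hg k₁

private theorem mid_kap {c : ℝ} {k₁ : ℕ} (hc : (2 : ℝ) ^ k₁ < c) : ∃ κ : ℕ, k₁ ≤ κ ∧ (2 : ℝ) ^ κ < c ∧
    c ≤ (2 : ℝ) ^ (κ + 1) := by
  have hc0 : 0 < c := lt_trans (by positivity) hc
  obtain ⟨n, hn⟩ := exists_mem_Ioc_zpow hc0 (one_lt_two : (1 : ℝ) < 2)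
  have h1 : (2 : ℝ) ^ (k₁ : ℤ) < (2 : ℝ) ^ (n + 1) := by
    rw [zpow_natCast]
    exact hc.trans_le hn.2
  have h2 : (k₁ : ℤ) < n + 1 := (zpow_lt_zpow_iff_right₀ one_lt_two).1 h1
  have h3 : 0 ≤ n := by omega
  lift n to ℕ using h3
  refine ⟨n, by omega, ?_, ?_⟩
  · have := hn.1
    rwa [zpow_natCast] at this
  · have := hn.2
    exact_mod_cast this

/-- the threshold -/
private theorem emd_thr (η : ℝ) (hη : 0 < η) (k : ℕ) : ∃ X₀ : ℝ, 3 ≤ X₀ ∧ ∀ X : ℝ, X₀ ≤ X →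
    (2 : ℝ) ^ k < X ^ η ∧ (1 + Real.log X) ^ 5 ≤ X ^ (η / 2) := by
  have h1 : ∀ᶠ X : ℝ in atTop, (2 : ℝ) ^ k < X ^ η := (tendsto_rpow_atTop hη).eventually_gt_atTop _
  have h2 : ∀ᶠ X : ℝ in atTop, (2 : ℝ) ≤ X ^ (η / 10) :=
    (tendsto_rpow_atTop (by positivity)).eventually_ge_atTop _
  have h3 : ∀ᶠ X : ℝ in atTop, ‖Real.log X‖ ≤ (1 / 2) * ‖X ^ (η / 10)‖ :=
    (isLittleO_log_rpow_atTop (by positivity : 0 < η / 10)).bound (by norm_num)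
  obtain ⟨X₀, hX₀⟩ := eventually_atTop.1 (h1.and (h2.and h3))
  refine ⟨max X₀ 3, le_max_right _ _, fun X hX => ?_⟩
  obtain ⟨e1, e2, e3⟩ := hX₀ X ((le_max_left _ _).trans hX)
  have hX3 : (3 : ℝ) ≤ X := (le_max_right _ _).trans hX
  refine ⟨e1, ?_⟩
  have hlX : 0 ≤ Real.log X := Real.log_nonneg (by linarith)
  rw [Real.norm_eq_abs, Real.norm_eq_abs, abs_of_nonneg hlX, abs_of_nonneg (by positivity)] at e3
  have h4 : 1 + Real.log X ≤ X ^ (η / 10) := by linarith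
  calc (1 + Real.log X) ^ 5 ≤ (X ^ (η / 10)) ^ 5 := pow_le_pow_left₀ (by linarith) h4 5
    _ = X ^ (η / 2) := by
      rw [← Real.rpow_natCast, ← Real.rpow_mul (by linarith)]
      congr 1
      push_cast
      ring

theorem emid (e : EE ι α) (η : ℝ) (hη : 0 < η) : ∃ C' X₀ : ℝ, 0 < C' ∧ 3 ≤ X₀ ∧ ∀ X : ℝ, X₀ ≤ X →
    ∀ T : Finset ι, (∀ i ∈ T, i ∈ e.P ∧ X ^ η < (e.D i : ℝ) ∧ 2 * (e.D i : ℝ) ≤ X ∧
      Real.exp (Real.log (Real.log X) ^ 3) ≤ X / e.D i) →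
    ∑ i ∈ T, |e.N i (X / e.D i) - e.w i * (X / e.D i)| ≤ C' * X := by
  obtain ⟨Cb, kb, hCb, hblk⟩ := eblk e
  have hC1 := e.C1
  obtain ⟨X₀, hX₀3, hX₀⟩ := emd_thr η hη (max kb 1)
  refine ⟨Cb * (e.C + 9), X₀, by positivity, hX₀3, fun X hXX T hT => ?_⟩
  obtain ⟨hthr, hlog⟩ := hX₀ X hXX
  have hX : 3 ≤ X := hX₀3.trans hXX
  obtain ⟨k₁, hk₁, hk₁a, hk₁c⟩ := mid_kap hthr
  have hk₁b : kb ≤ k₁ := (le_max_left _ _).trans hk₁
  have hk₁1 : 1 ≤ k₁ := (le_max_right _ _).trans hk₁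
  have hlX : 1 ≤ Real.log X := by
    rw [Real.le_log_iff_exp_le (by linarith)]
    linarith [Real.exp_one_lt_d9]
  have hex : ∀ i ∈ T, ∃ κ : ℕ, k₁ ≤ κ ∧ (2 : ℝ) ^ κ < (e.D i : ℝ) ∧ (e.D i : ℝ) ≤ (2 : ℝ) ^ (κ + 1) :=
    fun i hi => mid_kap (hk₁a.trans (hT i hi).2.1)
  choose! κ hκ1 hκ2 hκ3 using hex
  have hmap : ∀ i ∈ T, κ i ∈ Finset.Ico k₁ (T.sup κ + 1) := by
    intro i hi
    rw [Finset.mem_Ico]
    exact ⟨hκ1 i hi, Nat.lt_succ_of_le (Finset.le_sup (f := κ) hi)⟩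
  have hbl : ∀ k ∈ Finset.Ico k₁ (T.sup κ + 1),
      ∑ i ∈ T with κ i = k, |e.N i (X / e.D i) - e.w i * (X / e.D i)| ≤
      Cb * (∑ i ∈ T with κ i = k, e.s i + X / ((k : ℝ) + 1) ^ 2 +
        X * (1 + Real.log X) ^ 5 * (2 : ℝ) ^ (-((k : ℝ) / 2))) := by
    intro k hk
    have hk1 := (Finset.mem_Ico.1 hk).1
    refine hblk k (hk₁b.trans hk1) X (by linarith) _ fun i hi => ?_
    obtain ⟨hiT, hik⟩ := Finset.mem_filter.1 hi
    obtain ⟨h1, h2, h3, h4⟩ := hT i hiT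
    have h5 := hκ2 i hiT
    have h6 := hκ3 i hiT
    rw [hik] at h5 h6
    refine ⟨h1, by exact_mod_cast h5, by exact_mod_cast h6, le_trans (Real.exp_le_exp.2 ?_) h4⟩
    have h7 : (2 : ℝ) ^ (k + 1) ≤ X := by
      rw [pow_succ]
      linarith
    have h8 : Real.log ((2 : ℝ) ^ (k + 1)) ≤ Real.log X := Real.log_le_log (by positivity) h7
    have h9 : 1 ≤ Real.log ((2 : ℝ) ^ (k + 1)) := by
      rw [Real.log_pow]
      have h10 : (2 : ℝ) ≤ ((k + 1 : ℕ) : ℝ) := by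
        have : 2 ≤ k + 1 := by omega
        exact_mod_cast this
      have h11 := Real.log_two_gt_d9
      nlinarith
    exact pow_le_pow_left₀ (Real.log_nonneg h9) (Real.log_le_log (by linarith) h8) 3
  have hs : ∑ i ∈ T, e.s i ≤ e.C * X := by
    have h1 := e.sm ⌊X⌋₊ T fun i hi => ⟨(hT i hi).1, by
      have h1 := (hT i hi).2.2.1
      have h2 : (0 : ℝ) ≤ e.D i := Nat.cast_nonneg _
      exact Nat.le_floor (by linarith)⟩
    refine h1.trans (mul_le_mul_of_nonneg_left (Nat.floor_le (by linarith)) (by linarith))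
  have hB : ∑ k ∈ Finset.Ico k₁ (T.sup κ + 1), X / ((k : ℝ) + 1) ^ 2 ≤ X := by
    have h1 := mid_tel (f := fun k : ℕ => X / ((k : ℝ) + 1) ^ 2) (g := fun k : ℕ => X / (k : ℝ)) (k₁ := k₁)
      (fun k hk => by
        have hk0 : (1 : ℝ) ≤ (k : ℝ) := by
          have : 1 ≤ k := hk₁1.trans hk
          exact_mod_cast this
        push_cast
        rw [div_sub_div _ _ (by positivity) (by positivity), div_le_div_iff₀ (by positivity) (by positivity)]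
        have h2 : X * ((k : ℝ) + 1) - (k : ℝ) * X = X := by ring
        rw [h2]
        have h3 : (k : ℝ) * ((k : ℝ) + 1) ≤ ((k : ℝ) + 1) ^ 2 := by nlinarith
        exact mul_le_mul_of_nonneg_left h3 (by linarith))
      (fun k => by positivity) (T.sup κ + 1)
    refine h1.trans (div_le_self (by linarith) ?_)
    exact_mod_cast hk₁1
  have hr0 : 0 < (2 : ℝ) ^ (-(1 / 2) : ℝ) := by positivity
  have hr2 : (2 : ℝ) ^ (-(1 / 2) : ℝ) * (2 : ℝ) ^ (-(1 / 2) : ℝ) = 1 / 2 := by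
    rw [← Real.rpow_add (by norm_num)]
    norm_num
  have hr : (2 : ℝ) ^ (-(1 / 2) : ℝ) ≤ 3 / 4 := by
    nlinarith
  have hG : ∑ k ∈ Finset.Ico k₁ (T.sup κ + 1), (2 : ℝ) ^ (-((k : ℝ) / 2)) ≤
      4 * (2 : ℝ) ^ (-((k₁ : ℝ) / 2)) := by
    refine mid_tel (f := fun k : ℕ => (2 : ℝ) ^ (-((k : ℝ) / 2)))
      (g := fun k : ℕ => 4 * (2 : ℝ) ^ (-((k : ℝ) / 2))) (k₁ := k₁) (fun k _ => ?_) (fun k => by positivity) _
    have h1 : (2 : ℝ) ^ (-(((k : ℝ) + 1) / 2)) = (2 : ℝ) ^ (-((k : ℝ) / 2)) * (2 : ℝ) ^ (-(1 / 2) : ℝ) := by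
      rw [← Real.rpow_add (by norm_num)]
      congr 1
      ring
    push_cast
    rw [h1]
    have h2 : 0 < (2 : ℝ) ^ (-((k : ℝ) / 2)) := by positivity
    nlinarith
  -- the geometric factor
  have hgeo : (1 + Real.log X) ^ 5 * (2 : ℝ) ^ (-((k₁ : ℝ) / 2)) ≤ 2 := by
    have h1 : (2 : ℝ) ^ (-((k₁ : ℝ) / 2)) * (2 : ℝ) ^ (-(1 / 2) : ℝ) = ((2 : ℝ) ^ (((k₁ : ℝ) + 1) / 2))⁻¹ := by
      rw [← Real.rpow_add (by norm_num), ← Real.rpow_neg (by norm_num)]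
      congr 1
      ring
    have h2 : X ^ (η / 2) ≤ (2 : ℝ) ^ (((k₁ : ℝ) + 1) / 2) := by
      have e1 : X ^ (η / 2) = (X ^ η) ^ (1 / 2 : ℝ) := by
        rw [← Real.rpow_mul (by linarith)]
        congr 1
        ring
      have e2 : (2 : ℝ) ^ (((k₁ : ℝ) + 1) / 2) = ((2 : ℝ) ^ (k₁ + 1)) ^ (1 / 2 : ℝ) := by
        rw [← Real.rpow_natCast, ← Real.rpow_mul (by norm_num)]
        congr 1
        push_cast
        ring
      rw [e1, e2]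
      exact Real.rpow_le_rpow (by positivity) hk₁c (by norm_num)
    have h3 : (1 + Real.log X) ^ 5 * ((2 : ℝ) ^ (-((k₁ : ℝ) / 2)) * (2 : ℝ) ^ (-(1 / 2) : ℝ)) ≤ 1 := by
      rw [h1, ← div_eq_mul_inv, div_le_one (by positivity)]
      exact hlog.trans h2
    have h4 : 0 ≤ (1 + Real.log X) ^ 5 * (2 : ℝ) ^ (-((k₁ : ℝ) / 2)) := by positivity
    have h5 : 1 / 2 ≤ (2 : ℝ) ^ (-(1 / 2) : ℝ) := by nlinarith
    nlinarith
  rw [← Finset.sum_fiberwise_of_maps_to hmap]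
  refine (Finset.sum_le_sum hbl).trans ?_
  rw [← Finset.mul_sum, Finset.sum_add_distrib, Finset.sum_add_distrib, ← Finset.mul_sum,
    Finset.sum_fiberwise_of_maps_to hmap, mul_assoc Cb]
  refine mul_le_mul_of_nonneg_left ?_ hCb.le
  have hL2 : 0 ≤ X * (1 + Real.log X) ^ 5 := by positivity
  have h1 := mul_le_mul_of_nonneg_left hG hL2
  have h2 : X * (1 + Real.log X) ^ 5 * (4 * (2 : ℝ) ^ (-((k₁ : ℝ) / 2))) =
      4 * X * ((1 + Real.log X) ^ 5 * (2 : ℝ) ^ (-((k₁ : ℝ) / 2))) := by ring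
  rw [h2] at h1
  have h3 : 4 * X * ((1 + Real.log X) ^ 5 * (2 : ℝ) ^ (-((k₁ : ℝ) / 2))) ≤ 4 * X * 2 :=
    mul_le_mul_of_nonneg_left hgeo (by linarith)
  have h4 : (e.C + 9) * X = e.C * X + 9 * X := by ring
  rw [h4]
  linarith

end H38.SE
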