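import Pool.Agent.H67.SX.Defs

/-!
# [H38 SE EXC] there is a non-Galois cubic extension, 120-190 lines. File Pool/Agent/H38/SE/Exc.lean

* `exc_pol`: choose two different primes `w, v` of `𝓞 K` which do not contain `6` (infinitely many primes; only finitely many divide 6). By the Chinese remainder theorem for `w ^ 2`, `v ^ 2` (`IsCoprime`, `Ideal.exists_...`/`IsDedekindDomain.exists_forall_sub_mem_ideal`) there are `p, q ∈ 𝓞 K` with `p ∈ w`, `q ∈ w`, `q ∉ w ^ 2`, `p + 3 ∈ v ^ 2`, `q - 2 - π ∈ v ^ 2`, where `π ∈ v`, `π ∉ v ^ 2`.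
  `f = X ^ 3 + p X + q` is irreducible over `K`: Eisenstein at `w` (`Polynomial.IsEisensteinAt.irreducible`, primitive because monic; `Polynomial.Monic.irreducible_iff_irreducible_map_fraction_map`). `Δ = -4 p ^ 3 - 27 q ^ 2` satisfies `Δ + 108 π ∈ v ^ 2` (`(-3)^3 * (-4) = 108`, `27 (2 + π)^2 = 108 + 108 π + 27 π ^ 2`), `108 = 2 ^ 2 3 ^ 3 ∉ v`, so `Δ ∈ v`, `Δ ∉ v ^ 2` (`108 π ∉ v ^ 2`: count of `v`, or `v ^ 2` is `v`-primary).
  `Δ` is not a square in `K`: `Δ = y ^ 2` gives `y` integral, `y ∈ v` (prime), `Δ ∈ v ^ 2`.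
* `exc_sq`: if `F / K` is Galois of degree 3 and `θ ∈ F` is a root of `f`, `f` irreducible, then `Δ` is a square in `K`: the group has order 3, `σ` a generator (`σ ^ 3 = 1`, `σ ≠ 1`), `θ, σ θ, σ ^ 2 θ` are different roots (`σ θ ≠ θ` because `K(θ) = F`), so `f = (X - θ)(X - σ θ)(X - σ ^ 2 θ)`; `δ = (θ - σ θ)(σ θ - σ ^ 2 θ)(σ ^ 2 θ - θ)` is fixed by `σ`, hence by the group, so `δ ∈ K`, and `δ ^ 2 = Δ` (from `e₁ = 0`, `e₂ = p`, `e₃ = -q`: a polynomial identity; `Cubic.disc_eq_prod_three_roots` or `linear_combination`).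
* `exc`: `θ ∈ QBar` a root of `f`, `F = K⟮θ⟯` (`IntermediateField.adjoin.finrank`: degree 3).
-/

set_option autoImplicit false

open scoped NumberField Classical
open IsDedekindDomain H38.ML H63.MA H67.SX

noncomputable section

namespace H38.SE

private theorem prime_over (R : Type) [CommRing R] [IsDomain R] [CharZero R] [Algebra.IsIntegral ℤ R]
    (l : ℕ) (hl : l.Prime) : ∃ w : Ideal R, w.IsPrime ∧ (l : R) ∈ w ∧ w ≠ ⊥ := by
  have hp : Prime (l : ℤ) := Nat.prime_iff_prime_int.1 hl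
  have h1 : (Ideal.span {(l : ℤ)}).IsPrime := (Ideal.span_singleton_prime hp.ne_zero).2 hp
  have h2 : (Ideal.span {(l : ℤ)}).IsMaximal := h1.isMaximal (by
    rw [Ne, Ideal.span_singleton_eq_bot]; exact hp.ne_zero)
  obtain ⟨Q, hQ, hover⟩ := Ideal.exists_maximal_ideal_liesOver_of_isIntegral (S := R) (Ideal.span {(l : ℤ)})
  have hmem : (l : R) ∈ Q := by
    have : (l : ℤ) ∈ Q.under ℤ := by
      rw [← hover.over]
      exact Ideal.mem_span_singleton_self _
    rw [Ideal.under, Ideal.mem_comap] at this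
    simpa using this
  refine ⟨Q, hQ.isPrime, hmem, ?_⟩
  rintro rfl
  rw [Ideal.mem_bot] at hmem
  exact hl.ne_zero (by exact_mod_cast hmem)

private theorem pol_aux (R : Type) [CommRing R] [IsDomain R] [IsDedekindDomain R] [CharZero R]
    [Algebra.IsIntegral ℤ R] :
    ∃ (w v : Ideal R) (p q π a b : R), w.IsPrime ∧ v.IsPrime ∧ p ∈ w ∧ q ∈ w ∧ q ∉ w ^ 2 ∧
      π ∈ v ∧ π ∉ v ^ 2 ∧ a ∈ v ^ 2 ∧ b ∈ v ^ 2 ∧ p = -3 + a ∧ q = 2 + π + b ∧ (6 : R) ∉ v := by
  obtain ⟨w, hw, hw5, hw0⟩ := prime_over R 5 (by norm_num)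
  obtain ⟨v, hv, hv7, hv0⟩ := prime_over R 7 (by norm_num)
  have hwv : w ≠ v := by
    rintro rfl
    apply hw.ne_top
    rw [Ideal.eq_top_iff_one]
    have : (1 : R) = 3 * ((5 : ℕ) : R) - 2 * ((7 : ℕ) : R) := by push_cast; norm_num
    rw [this]
    exact w.sub_mem (w.mul_mem_left _ hw5) (w.mul_mem_left _ hv7)
  have h6 : (6 : R) ∉ v := by
    intro h
    apply hv.ne_top
    rw [Ideal.eq_top_iff_one]
    have : (1 : R) = ((7 : ℕ) : R) - 6 := by push_cast; norm_num
    rw [this]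
    exact v.sub_mem hv7 h
  obtain ⟨ρ, hρ1, hρ2⟩ := Ideal.exists_mem_pow_notMem_pow_succ w hw0 hw.ne_top 1
  obtain ⟨π, hπ1, hπ2⟩ := Ideal.exists_mem_pow_notMem_pow_succ v hv0 hv.ne_top 1
  rw [pow_one] at hρ1 hπ1
  have hcrt : ∀ x y : R, ∃ z : R, z - x ∈ w ^ 2 ∧ z - y ∈ v ^ 2 := by
    intro x y
    obtain ⟨z, hz⟩ := IsDedekindDomain.exists_forall_sub_mem_ideal (s := (Finset.univ : Finset (Fin 2)))
      ![w, v] (fun _ => 2) (by
        intro i _
        fin_cases i
        · exact Ideal.prime_of_isPrime hw0 hw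
        · exact Ideal.prime_of_isPrime hv0 hv) (by
        intro i _ j _ hij
        fin_cases i <;> fin_cases j
        · exact absurd rfl hij
        · exact hwv
        · exact hwv.symm
        · exact absurd rfl hij) (fun i => ![x, y] i.1)
    exact ⟨z, hz 0 (Finset.mem_univ _), hz 1 (Finset.mem_univ _)⟩
  obtain ⟨p, hp1, hp2⟩ := hcrt 0 (-3)
  obtain ⟨q, hq1, hq2⟩ := hcrt ρ (2 + π)
  have hle : w ^ 2 ≤ w := Ideal.pow_le_self (by norm_num)
  refine ⟨w, v, p, q, π, p - -3, q - (2 + π), hw, hv, ?_, ?_, ?_, hπ1, hπ2, hp2, hq2, by ring, by ring, h6⟩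
  · simpa using hle hp1
  · have := w.add_mem (hle hq1) hρ1
    simpa using this
  · intro h
    apply hρ2
    have := (w ^ 2).sub_mem h hq1
    simpa using this

open Polynomial in
private theorem eis_irr {R F : Type} [CommRing R] [IsDomain R] [IsIntegrallyClosed R] [Field F] [Algebra R F]
    [IsFractionRing R F] (w : Ideal R) (hw : w.IsPrime) (p q : R) (hp : p ∈ w) (hq : q ∈ w)
    (hq2 : q ∉ w ^ 2) :
    Irreducible (X ^ 3 + C (algebraMap R F p) * X + C (algebraMap R F q) : F[X]) := by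
  have hmon : (X ^ 3 + C p * X + C q : R[X]).Monic := by monicity!
  have hdeg : (X ^ 3 + C p * X + C q : R[X]).natDegree = 3 := by compute_degree!
  have heis : (X ^ 3 + C p * X + C q : R[X]).IsEisensteinAt w := by
    refine ⟨?_, ?_, ?_⟩
    · rw [hmon.leadingCoeff]
      intro h
      exact hw.ne_top (w.eq_top_iff_one.2 h)
    · intro n hn
      rw [hdeg] at hn
      interval_cases n
      · simpa [coeff_X, coeff_X_pow, coeff_C] using hq
      · simpa [coeff_X, coeff_X_pow, coeff_C] using hp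
      · simp [coeff_X, coeff_X_pow, coeff_C]
    · simpa [coeff_X, coeff_X_pow, coeff_C] using hq2
  have hirr := heis.irreducible hw hmon.isPrimitive (by rw [hdeg]; norm_num)
  have := (hmon.irreducible_iff_irreducible_map_fraction_map (K := F)).1 hirr
  simpa [Polynomial.map_add, Polynomial.map_mul] using this

private theorem no_sq {R F : Type} [CommRing R] [IsDomain R] [IsDedekindDomain R] [Field F] [Algebra R F]
    [IsFractionRing R F] (v : Ideal R) (hv : v.IsPrime) (π a b : R) (hπ : π ∈ v) (hπ2 : π ∉ v ^ 2)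
    (ha : a ∈ v ^ 2) (hb : b ∈ v ^ 2) (h6 : (6 : R) ∉ v) (y : F) :
    y ^ 2 ≠ -4 * (algebraMap R F (-3 + a)) ^ 3 - 27 * (algebraMap R F (2 + π + b)) ^ 2 := by
  intro h
  have h' : y ^ 2 = algebraMap R F (-4 * (-3 + a) ^ 3 - 27 * (2 + π + b) ^ 2) := by
    rw [h]; simp only [map_sub, map_mul, map_neg, map_pow, map_add, map_ofNat]
  have hint : IsIntegral R y := by
    refine IsIntegral.of_pow (n := 2) (by norm_num) ?_
    rw [h']; exact isIntegral_algebraMap
  obtain ⟨Y, rfl⟩ := IsIntegrallyClosed.isIntegral_iff.1 hint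
  rw [← map_pow] at h'
  have hY : Y ^ 2 = -4 * (-3 + a) ^ 3 - 27 * (2 + π + b) ^ 2 := IsFractionRing.injective R F h'
  have hle : v ^ 2 ≤ v := Ideal.pow_le_self (by norm_num)
  have hππ : π ^ 2 ∈ v ^ 2 := Ideal.pow_mem_pow hπ 2
  have hsum : Y ^ 2 + 108 * π ∈ v ^ 2 := by
    have : Y ^ 2 + 108 * π = (-4 * a ^ 2 + 36 * a - 108) * a + (-108 - 54 * π - 27 * b) * b +
        (-27) * π ^ 2 := by rw [hY]; ring
    rw [this]
    exact Ideal.add_mem _ (Ideal.add_mem _ (Ideal.mul_mem_left _ _ ha) (Ideal.mul_mem_left _ _ hb))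
      (Ideal.mul_mem_left _ _ hππ)
  have hYv : Y ∈ v := by
    have h1 : Y ^ 2 ∈ v := by
      have := v.sub_mem (hle hsum) (v.mul_mem_left 108 hπ)
      simpa using this
    exact hv.mem_of_pow_mem 2 h1
  have hY2 : Y ^ 2 ∈ v ^ 2 := Ideal.pow_mem_pow hYv 2
  have h108 : (108 : R) * π ∈ v ^ 2 := by
    have := Ideal.sub_mem _ hsum hY2
    simpa using this
  haveI := hv
  rcases Ideal.IsPrime.mul_mem_pow v h108 with h1 | h1
  · have h2 : (6 : R) ^ 3 ∈ v := by
      have : (6 : R) ^ 3 = 2 * 108 := by norm_num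
      rw [this]; exact v.mul_mem_left _ h1
    exact h6 (hv.mem_of_pow_mem 3 h2)
  · exact hπ2 h1

open Polynomial in
theorem exc_pol (K : IntermediateField ℚ QBar) [NumberField K] : ∃ p q : 𝓞 K,
    Irreducible (X ^ 3 + C (p : K) * X + C (q : K) : K[X]) ∧
      ∀ y : K, y ^ 2 ≠ -4 * (p : K) ^ 3 - 27 * (q : K) ^ 2 := by
  obtain ⟨w, v, p, q, π, a, b, hw, hv, hpw, hqw, hqw2, hπ, hπ2, ha, hb, rfl, rfl, h6⟩ := pol_aux (𝓞 K)
  exact ⟨-3 + a, 2 + π + b, eis_irr (F := K) w hw _ _ hpw hqw hqw2,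
    fun y => no_sq (F := K) v hv π a b hπ hπ2 ha hb h6 y⟩

private theorem roots_aux {F : Type} [Field F] (p q x y z : F) (h1 : x ^ 3 + p * x + q = 0)
    (h2 : y ^ 3 + p * y + q = 0) (h3 : z ^ 3 + p * z + q = 0) (hxy : x ≠ y) (hyz : y ≠ z) (hxz : x ≠ z) :
    ((x - y) * (y - z) * (z - x)) ^ 2 = -4 * p ^ 3 - 27 * q ^ 2 := by
  have e1 : x ^ 2 + x * y + y ^ 2 + p = 0 := by
    have : (x - y) * (x ^ 2 + x * y + y ^ 2 + p) = 0 := by linear_combination h1 - h2
    exact (mul_eq_zero.1 this).resolve_left (sub_ne_zero.2 hxy)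
  have e2 : y ^ 2 + y * z + z ^ 2 + p = 0 := by
    have : (y - z) * (y ^ 2 + y * z + z ^ 2 + p) = 0 := by linear_combination h2 - h3
    exact (mul_eq_zero.1 this).resolve_left (sub_ne_zero.2 hyz)
  have e3 : x + y + z = 0 := by
    have : (x - z) * (x + y + z) = 0 := by linear_combination e1 - e2
    exact (mul_eq_zero.1 this).resolve_left (sub_ne_zero.2 hxz)
  have ez : z = -x - y := by linear_combination e3
  have ep : p = -(x ^ 2 + x * y + y ^ 2) := by linear_combination e1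
  have eq : q = x * y * (x + y) := by rw [ep] at h1; linear_combination h1
  rw [ez, ep, eq]
  ring

theorem exc_sq (K : IntermediateField ℚ QBar) [NumberField K] (F : IntermediateField K QBar)
    (h3 : Module.finrank K F = 3) (hG : IsGalois K F) (p q : K) (θ : F)
    (hθ : θ ^ 3 + algebraMap K F p * θ + algebraMap K F q = 0)
    (hn : ∀ z : K, algebraMap K F z ≠ θ) : ∃ y : K, y ^ 2 = -4 * p ^ 3 - 27 * q ^ 2 := by
  haveI : FiniteDimensional K F := Module.finite_of_finrank_pos (by rw [h3]; norm_num)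
  have hcard : Nat.card (F ≃ₐ[K] F) = 3 := by rw [IsGalois.card_aut_eq_finrank, h3]
  have hσ : ∃ σ : F ≃ₐ[K] F, σ θ ≠ θ := by
    by_contra hcon
    push Not at hcon
    obtain ⟨z, hz⟩ := IntermediateField.mem_bot.1 ((IsGalois.mem_bot_iff_fixed (F := K) θ).2 hcon)
    exact hn z hz
  obtain ⟨σ, hσ⟩ := hσ
  have hσ1 : σ ≠ 1 := by rintro rfl; exact hσ rfl
  haveI : Fact (Nat.Prime 3) := ⟨by norm_num⟩
  have hσ3 : σ ^ 3 = 1 := by rw [← hcard]; exact pow_card_eq_one'
  have hgen : ∀ τ : F ≃ₐ[K] F, τ ∈ Subgroup.zpowers σ := fun τ =>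
    mem_zpowers_of_prime_card hcard hσ1
  have h3x : ∀ x : F, σ (σ (σ x)) = x := by
    intro x
    have := congrArg (fun g : F ≃ₐ[K] F => g x) hσ3
    simpa [pow_succ] using this
  have hr : ∀ x : F, x ^ 3 + algebraMap K F p * x + algebraMap K F q = 0 →
      (σ x) ^ 3 + algebraMap K F p * (σ x) + algebraMap K F q = 0 := by
    intro x hx
    have := congrArg σ hx
    simpa [map_add, map_mul, map_pow] using this
  have r1 := hr θ hθ
  have r2 := hr _ r1
  have n12 : σ θ ≠ σ (σ θ) := fun h => hσ (σ.injective h).symm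
  have n02 : θ ≠ σ (σ θ) := by
    intro h
    apply hσ
    have := congrArg σ h
    rw [h3x] at this
    exact this
  have hd := roots_aux _ _ θ (σ θ) (σ (σ θ)) hθ r1 r2 hσ.symm n12 n02
  set δ : F := (θ - σ θ) * (σ θ - σ (σ θ)) * (σ (σ θ) - θ) with hδ
  have hfix : σ δ = δ := by
    rw [hδ]
    simp only [map_mul, map_sub]
    rw [h3x]
    ring
  have hall : ∀ τ : F ≃ₐ[K] F, τ δ = δ := by
    intro τ
    obtain ⟨n, rfl⟩ := Subgroup.mem_zpowers_iff.1 (hgen τ)
    have hmem : σ ∈ MulAction.stabilizer (F ≃ₐ[K] F) δ := hfix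
    exact (Subgroup.zpow_mem _ hmem n : σ ^ n ∈ MulAction.stabilizer (F ≃ₐ[K] F) δ)
  obtain ⟨y, hy⟩ := IntermediateField.mem_bot.1 ((IsGalois.mem_bot_iff_fixed (F := K) δ).2 hall)
  refine ⟨y, (algebraMap K F).injective ?_⟩
  rw [map_pow, hy, hd]
  simp only [map_sub, map_mul, map_neg, map_pow, map_ofNat]

open Polynomial in
theorem exc (K : IntermediateField ℚ QBar) [NumberField K] : Nonempty (Cu K) := by
  obtain ⟨p, q, hirr, hsq⟩ := exc_pol K
  have hmon : (X ^ 3 + C (p : K) * X + C (q : K) : K[X]).Monic := by monicity!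
  have hdeg : (X ^ 3 + C (p : K) * X + C (q : K) : K[X]).natDegree = 3 := by compute_degree!
  obtain ⟨θ, hθ⟩ := IsAlgClosed.exists_aeval_eq_zero QBar (X ^ 3 + C (p : K) * X + C (q : K) : K[X])
    (by rw [degree_eq_natDegree hmon.ne_zero, hdeg]; norm_num)
  have hmin : minpoly K θ = X ^ 3 + C (p : K) * X + C (q : K) :=
    (minpoly.eq_of_irreducible_of_monic hirr hθ hmon).symm
  have hint : IsIntegral K θ := ⟨_, hmon, hθ⟩
  have hfin : Module.finrank K (IntermediateField.adjoin K {θ}) = 3 := by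
    rw [IntermediateField.adjoin.finrank hint, hmin, hdeg]
  refine ⟨⟨IntermediateField.adjoin K {θ}, hfin, fun hG => ?_⟩⟩
  have hmem : θ ∈ IntermediateField.adjoin K {θ} := IntermediateField.mem_adjoin_simple_self K θ
  obtain ⟨y, hy⟩ := exc_sq K (IntermediateField.adjoin K {θ}) hfin hG (p : K) (q : K) ⟨θ, hmem⟩
    (by
      apply Subtype.ext
      simpa [aeval_def] using hθ)
    (by
      intro z hz
      have hz' : algebraMap K QBar z = θ := congrArg Subtype.val hz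
      have : minpoly K θ = X - C z := by rw [← hz']; exact minpoly.eq_X_sub_C QBar z
      have h1 : (minpoly K θ).natDegree = 1 := by rw [this]; exact natDegree_X_sub_C z
      rw [hmin, hdeg] at h1
      norm_num at h1)
  exact hsq y hy

end H38.SE
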