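import Pool.Agent.H38.SE.Two
import Pool.Agent.H38.EN.Sms

/-!
# [H38 SE FNS] finiteness and the sum of `selg` over the characters, 60-100 lines. File Pool/Agent/H38/SE/Fns.lean

* `cu_ext`: a `Cu K` is determined by `F` (the other fields are propositions).
* `selg1`: as `selg_pos` in H38/EN/Sms.lean: `selg_fd` (KV/FinB.lean), `selc` is the `Nat.card` of a finite (`sel_fin`, KV/UbD.lean, with `MOne 2 F` from `MOne 2 K`, see the proof of `selg_pos`) type which contains the class of `1`.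
* `fns`: `C₁` from `WStat K`, `C = 2 C₁`. For `R ≥ 1` the set `{c : Cu K | c.D ≤ R}` is finite; `χ ↦ c` (`chc`, `c.D = dD χ` by `cdd`) has fibres of at most 2 elements (`two`, `cu_ext`), so the set of the characters is finite (union of the finite sets of `two`), and `∑_{χ ∈ T} selg (F0 χ) ≤ 2 ∑_{c ∈ image} selg c.F ≤ 2 C₁ R` (`Finset.sum_fiberwise_of_maps_to`, `Set.ncard_le_ncard`). For `R = 0`: `dD χ ≥ 1` (`dD1`), both sets are empty.
* `fns3`: the characters of a finite set `T` with the same field `c.F` are at most 3.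
-/

set_option autoImplicit false

open scoped NumberField Classical
open IsDedekindDomain H38.ML H63.MA H67.SX H48.KV

noncomputable section

namespace H38.SE

variable {K : IntermediateField ℚ QBar} [NumberField K]

theorem cu_ext (c c' : Cu K) (h : c.F = c'.F) : c = c' := by
  cases c; cases c'; cases h; rfl

theorem selg1 (hi : MOne 2 K) (c : Cu K) : 1 ≤ selg c.F := by
  rw [selg_fd c.F]
  have hfin := sel_fin K c.F (mone_map hi c.F)
  have hone : H38.WM.Sel K c.F 1 := by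
    refine ⟨?_, fun P => ?_⟩
    · rw [Units.val_one, map_one]
      exact ⟨1, (one_mul 1).symm⟩
    · rw [ord_one]
      exact ⟨0, rfl⟩
  exact Nat.card_pos_iff.2 ⟨⟨Quot.mk _ ⟨1, hone⟩⟩, hfin⟩

private theorem fib_le (c : Cu K) (T : Finset (Gal(QBar/K) →* Equiv.Perm (Fin 3)))
    (hT : ∀ χ ∈ T, χ ∈ Ch K ∧ c.F = F0 χ) : T.card ≤ 2 := by
  obtain ⟨h1, h2⟩ := two c
  rw [← h2, ← Set.ncard_coe_finset]
  exact Set.ncard_le_ncard (fun χ hχ => hT χ hχ) h1

theorem fns (hW : WStat K) : ∃ C : ℝ, 1 ≤ C ∧ ∀ R : ℕ,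
    {χ : Gal(QBar/K) →* Equiv.Perm (Fin 3) | χ ∈ Ch K ∧ dD χ ≤ R}.Finite ∧
    ∀ T : Finset (Gal(QBar/K) →* Equiv.Perm (Fin 3)), (∀ χ ∈ T, χ ∈ Ch K ∧ dD χ ≤ R) →
      ∑ χ ∈ T, (selg (F0 χ) : ℝ) ≤ C * R := by
  obtain ⟨C₁, hC₁, hW⟩ := hW
  refine ⟨2 * C₁, by linarith, fun R => ?_⟩
  rcases Nat.eq_zero_or_pos R with rfl | hR
  · have hemp : ∀ χ : Gal(QBar/K) →* Equiv.Perm (Fin 3), ¬ (χ ∈ Ch K ∧ dD χ ≤ 0) := by
      rintro χ ⟨h1, h2⟩
      have := dD1 χ h1
      omega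
    refine ⟨?_, fun T hT => ?_⟩
    · convert Set.finite_empty
      ext χ
      exact ⟨fun h => absurd h (hemp χ), fun h => h.elim⟩
    · have h1 : T = ∅ := Finset.eq_empty_of_forall_notMem fun χ hχ => hemp χ (hT χ hχ)
      rw [h1, Finset.sum_empty, Nat.cast_zero, mul_zero]
  · have hR1 : (1 : ℝ) ≤ R := by exact_mod_cast hR
    obtain ⟨hfin, hsum⟩ := hW R hR1
    have hD : ∀ (χ : Gal(QBar/K) →* Equiv.Perm (Fin 3)) (c : Cu K), dD χ ≤ R → c.F = F0 χ → c.D ≤ R := by
      intro χ c h1 h2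
      rw [cdd χ c h2]
      exact_mod_cast h1
    refine ⟨?_, fun T hT => ?_⟩
    · refine (hfin.biUnion fun c _ => (two c).1).subset ?_
      rintro χ ⟨h1, h2⟩
      obtain ⟨c, hc⟩ := chc χ h1
      exact Set.mem_iUnion₂.2 ⟨c, hD χ c h2 hc, h1, hc⟩
    · obtain ⟨TC, hTC⟩ : ∃ TC : Finset (Cu K), TC = hfin.toFinset.filter fun c => c.F ∈ T.image F0 := ⟨_, rfl⟩
      have hmem : ∀ c, c ∈ TC ↔ c.D ≤ R ∧ c.F ∈ T.image F0 := by
        intro c
        rw [hTC, Finset.mem_filter, Set.Finite.mem_toFinset]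
        exact Iff.rfl
      have himg : T.image F0 = TC.image fun c => c.F := by
        ext F
        constructor
        · intro hF
          obtain ⟨χ, hχ, rfl⟩ := Finset.mem_image.1 hF
          obtain ⟨c, hc⟩ := chc χ (hT χ hχ).1
          exact Finset.mem_image.2 ⟨c, (hmem c).2 ⟨hD χ c (hT χ hχ).2 hc, by rw [hc]; exact hF⟩, hc⟩
        · intro hF
          obtain ⟨c, hc, rfl⟩ := Finset.mem_image.1 hF
          exact ((hmem c).1 hc).2
      have h1 : ∑ χ ∈ T, (selg (F0 χ) : ℝ) ≤ ∑ F ∈ T.image F0, 2 * (selg F : ℝ) := by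
        rw [Finset.sum_comp (fun F => (selg F : ℝ)) F0]
        refine Finset.sum_le_sum fun F hF => ?_
        rw [nsmul_eq_mul]
        refine mul_le_mul_of_nonneg_right ?_ (Nat.cast_nonneg _)
        obtain ⟨χ, hχ, hχF⟩ := Finset.mem_image.1 hF
        obtain ⟨c, hc⟩ := chc χ (hT χ hχ).1
        have h2 : (T.filter fun a => F0 a = F).card ≤ 2 := by
          refine fib_le c _ fun χ' hχ' => ?_
          obtain ⟨h3, h4⟩ := Finset.mem_filter.1 hχ'
          exact ⟨(hT χ' h3).1, by rw [hc, h4, hχF]⟩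
        exact_mod_cast h2
      refine h1.trans ?_
      rw [← Finset.mul_sum, himg, Finset.sum_image fun c _ c' _ h => cu_ext c c' h]
      have h2 := hsum TC fun c hc => ((hmem c).1 hc).1
      linarith

theorem fns3 (c : Cu K) (T : Finset (Gal(QBar/K) →* Equiv.Perm (Fin 3)))
    (hT : ∀ χ ∈ T, χ ∈ Ch K ∧ c.F = F0 χ) : T.card ≤ 3 :=
  (fib_le c T hT).trans (by norm_num)

end H38.SE
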