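import Pool.Agent.H38.SE.Grp

/-!
# [H38 SE GR2] the group `S_4` in degree 6: transitivity, injectivity, 60-110 lines. File Pool/Agent/H38/SE/Gr2.lean

* `r6_inj`: if `act2 g = 1` then `g` maps every 2-element subset to itself; `{i} = {i, j} ∩ {i, k}` so `g i = i` (or `decide` on `Fin 4`: `∀ g : Perm (Fin 4), (∀ i j, i ≠ j → ({i, j} : Finset (Fin 4)).map g.toEmbedding = {i, j}) → g = 1`).
* `g6_tr`: for two 2-element subsets there is `g` which maps one to the other (`decide`, or choose `{a, b}`, `{c, d}`: `Finset.card_eq_two`, `swap`s).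
* `g6e e : Perm (Fin 4) ≃* G6 e` (given), `p6 e : G6 e →* Perm (Fin 3)` (given) `= pi4 ∘ (g6e e)⁻¹`; `pi4` is surjective: `decide +kernel` (`∀ p : Perm (Fin 3), ∃ g, pi4 g = p`), or `pi4 (swap 0 1)`, `pi4 (swap 1 2)` generate.
* `g6_iff`: the description of `G6 e` used in the final statement.
-/

set_option autoImplicit false

open scoped NumberField Classical
open H38.ML

noncomputable section

namespace H38.SE

private theorem two_oth : ∀ i : Fin 4, ∃ j k : Fin 4, i ≠ j ∧ i ≠ k ∧ j ≠ k := by decide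

theorem r6_inj (e : Fin 6 ≃ S2) : Function.Injective (r6 e) := by
  rw [injective_iff_map_eq_one]
  intro g hg
  have h1 : ∀ s : S2, act2 g s = s := by
    intro s
    have h2 := r6_val e g (e.symm s)
    rw [hg, Equiv.Perm.one_apply, Equiv.apply_symm_apply] at h2
    exact h2.symm
  have h2 : ∀ i j : Fin 4, i ≠ j → g i = i ∨ g i = j := by
    intro i j hij
    have h3 : (({i, j} : Finset (Fin 4))).card = 2 := Finset.card_pair hij
    have h4 := congrArg Subtype.val (h1 ⟨{i, j}, h3⟩)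
    rw [act2_val] at h4
    have h5 : g i ∈ (({i, j} : Finset (Fin 4))).map g.toEmbedding := by
      rw [mem_im, show (g⁻¹) (g i) = i from g.symm_apply_apply i]
      exact Finset.mem_insert_self _ _
    have h4' : (({i, j} : Finset (Fin 4))).map g.toEmbedding = {i, j} := h4
    rw [h4', Finset.mem_insert, Finset.mem_singleton] at h5
    exact h5
  ext i : 1
  obtain ⟨j, k, hj, hk, hjk⟩ := two_oth i
  rw [Equiv.Perm.one_apply]
  rcases h2 i j hj with h3 | h3
  · exact h3
  · rcases h2 i k hk with h4 | h4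
    · exact h4
    · exact absurd (h3.symm.trans h4) hjk

theorem g6_tr (e : Fin 6 ≃ S2) : MulAction.IsPretransitive (G6 e) (Fin 6) := by
  refine ⟨fun x y => ?_⟩
  obtain ⟨a, b, hab, hx⟩ := Finset.card_eq_two.1 (e x).2
  obtain ⟨c, d, hcd, hy⟩ := Finset.card_eq_two.1 (e y).2
  have h1 : c ≠ Equiv.swap a c b := by
    intro h
    have h2 : Equiv.swap a c a = Equiv.swap a c b := by rw [Equiv.swap_apply_left]; exact h
    exact hab ((Equiv.swap a c).injective h2)
  let g : Equiv.Perm (Fin 4) := Equiv.swap (Equiv.swap a c b) d * Equiv.swap a c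
  have ga : g a = c := by
    change Equiv.swap (Equiv.swap a c b) d (Equiv.swap a c a) = c
    rw [Equiv.swap_apply_left, Equiv.swap_apply_of_ne_of_ne h1 hcd]
  have gb : g b = d := by
    change Equiv.swap (Equiv.swap a c b) d (Equiv.swap a c b) = d
    rw [Equiv.swap_apply_left]
  refine ⟨⟨r6 e g, ⟨g, rfl⟩⟩, ?_⟩
  change r6 e g x = y
  apply e.injective
  rw [r6_val]
  apply Subtype.ext
  rw [act2_val, hx, hy, Finset.map_insert, Finset.map_singleton]
  change ({g a, g b} : Finset (Fin 4)) = _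
  rw [ga, gb]

theorem pi4_sj : Function.Surjective pi4 := by
  have h : ∀ p : Equiv.Perm (Fin 3), ∃ g : Equiv.Perm (Fin 4), ∀ i, pi4 g i = p i := by
    decide +kernel
  intro p
  obtain ⟨g, hg⟩ := h p
  exact ⟨g, Equiv.ext hg⟩

/-- the isomorphism with `Perm (Fin 4)` -/
def g6e (e : Fin 6 ≃ S2) : Equiv.Perm (Fin 4) ≃* G6 e := MonoidHom.ofInjective (r6_inj e)

/-- the action of `G6 e` on the three double transpositions -/
def p6 (e : Fin 6 ≃ S2) : G6 e →* Equiv.Perm (Fin 3) := pi4.comp (g6e e).symm.toMonoidHom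

theorem p6_sj (e : Fin 6 ≃ S2) : Function.Surjective (p6 e) := by
  unfold p6
  rw [MonoidHom.coe_comp]
  exact pi4_sj.comp (g6e e).symm.surjective

theorem p6_val (e : Fin 6 ≃ S2) (g : Equiv.Perm (Fin 4)) : p6 e (g6e e g) = pi4 g := by
  change pi4 ((g6e e).symm (g6e e g)) = pi4 g
  rw [MulEquiv.symm_apply_apply]

theorem g6e_val (e : Fin 6 ≃ S2) (g : Equiv.Perm (Fin 4)) :
    ((g6e e g : G6 e) : Equiv.Perm (Fin 6)) = r6 e g := rfl

theorem g6_iff (e : Fin 6 ≃ S2) (p : Equiv.Perm (Fin 6)) : p ∈ G6 e ↔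
    ∃ g : Equiv.Perm (Fin 4), ∀ i, (e (p i) : Finset (Fin 4)) = (e i : Finset (Fin 4)).map g.toEmbedding := by
  constructor
  · rintro ⟨g, rfl⟩
    refine ⟨g, fun i => ?_⟩
    rw [r6_val, act2_val]
  · rintro ⟨g, hg⟩
    refine ⟨g, Equiv.ext fun i => ?_⟩
    apply e.injective
    rw [r6_val]
    apply Subtype.ext
    rw [act2_val, hg]

end H38.SE
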