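import Pool.Agent.H38.SE.Defs

/-!
# [H38 SE GRP] the group `S_4` in degree 6 (definitions and first properties), complete. File Pool/Agent/H38/SE/Grp.lean

`S2`: the 2-element subsets of `{0, 1, 2, 3}`. `act2`: the action of `Perm (Fin 4)`. `r6 e`: the same on `Fin 6`, for a numbering `e` of `S2`. `G6 e`: the image.
-/

set_option autoImplicit false

open scoped NumberField Classical
open H38.ML

noncomputable section

namespace H38.SE

/-- the 2-element subsets of `{0, 1, 2, 3}` -/
abbrev S2 : Type := {s : Finset (Fin 4) // s.card = 2}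

theorem mem_im (g : Equiv.Perm (Fin 4)) (s : Finset (Fin 4)) (i : Fin 4) :
    i ∈ s.map g.toEmbedding ↔ g⁻¹ i ∈ s := by
  rw [Finset.mem_map_equiv]
  rfl

/-- the action on the 2-element subsets -/
def act2 : Equiv.Perm (Fin 4) →* Equiv.Perm S2 where
  toFun g :=
    { toFun := fun s => ⟨s.1.map g.toEmbedding, by rw [Finset.card_map]; exact s.2⟩
      invFun := fun s => ⟨s.1.map (g⁻¹).toEmbedding, by rw [Finset.card_map]; exact s.2⟩
      left_inv := fun s => by
        apply Subtype.ext
        ext i
        rw [mem_im, mem_im, inv_inv]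
        exact iff_of_eq (congrArg (· ∈ s.1) (g.symm_apply_apply i))
      right_inv := fun s => by
        apply Subtype.ext
        ext i
        rw [mem_im, mem_im, inv_inv]
        exact iff_of_eq (congrArg (· ∈ s.1) (g.apply_symm_apply i)) }
  map_one' := by
    ext s i
    change i ∈ s.1.map (1 : Equiv.Perm (Fin 4)).toEmbedding ↔ i ∈ s.1
    rw [mem_im, inv_one, Equiv.Perm.one_apply]
  map_mul' g h := by
    ext s i
    change i ∈ s.1.map (g * h).toEmbedding ↔ i ∈ (s.1.map h.toEmbedding).map g.toEmbedding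
    rw [mem_im, mem_im, mem_im, mul_inv_rev, Equiv.Perm.mul_apply]

theorem act2_val (g : Equiv.Perm (Fin 4)) (s : S2) :
    ((act2 g s : S2) : Finset (Fin 4)) = s.1.map g.toEmbedding := rfl

/-- the action on `Fin 6` for a numbering `e` -/
def r6 (e : Fin 6 ≃ S2) : Equiv.Perm (Fin 4) →* Equiv.Perm (Fin 6) :=
  (e.symm.permCongrHom.toMonoidHom).comp act2

theorem r6_val (e : Fin 6 ≃ S2) (g : Equiv.Perm (Fin 4)) (i : Fin 6) :
    e (r6 e g i) = act2 g (e i) := by
  change e (e.symm (act2 g (e.symm.symm i))) = _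
  simp

/-- the group `S_4` in degree 6 -/
def G6 (e : Fin 6 ≃ S2) : Subgroup (Equiv.Perm (Fin 6)) := (r6 e).range

end H38.SE
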