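import Pool.Agent.H38.SE.Fns

/-!
# [H38 SE MEA] the mean value over the characters, 120-180 lines. File Pool/Agent/H38/SE/Mea.lean

`LEq S Q` is an equivalence relation on `Cu K` (`Equiv.refl`, `e.symm`, `e.trans`; for the symmetry apply the condition at `e.symm ι'`). `T` from `LFin`. Choose for every class of `LEq` met by `T` one element (image of `T` under a choice function of the classes, or `Quotient` as in `mai`, Pool/Agent/H38/EN/Mai.lean): `T'` such that every `c : Cu K` is equivalent to exactly one `c₀ ∈ T'`; `a(c₀) > 0` from `LS5`.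
`∑_{χ ∈ Ch K, dD χ ≤ R} W (cc χ) Am (cc χ) = 2 ∑_{c : c.D ≤ R} W c Am c` (`two`: the fibre of `χ ↦ cc χ` over `c` is the set of `two` because `cc χ = c` iff `c.F = F0 χ`, `cu_ext`; the set `{c | c.D ≤ R}` is finite by `hW`, `cdd`) `= 2 ∑_{c₀ ∈ T'} W c₀ ∑ᶠ_{c : LEq c₀ c, c.D ≤ R} Am c` (`finsum_mem_eq_finite_toFinset_sum`),
so the limit is `a = 2 ∑_{c₀ ∈ T'} W c₀ a(c₀)` (`tendsto_finsetSum`, `LS5` composed with `tendsto_natCast_atTop_atTop`). It is `≥ 0`, and `> 0` if some `W c > 0`: `W c = W c₀` for the `c₀ ∈ T'` equivalent to `c`.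
-/

set_option autoImplicit false

open scoped NumberField Classical
open IsDedekindDomain H38.ML H63.MA H67.SX H48.KV Filter Topology

noncomputable section

namespace H38.SE

variable {K : IntermediateField ℚ QBar} [NumberField K]

private theorem mea_leq (S : Finset (Pl K)) (Q : DP K QBar) : Equivalence (LEq S Q) where
  refl c v _ := ⟨Equiv.refl _, fun _ _ _ => rfl⟩
  symm {c c'} h v hv := by
    obtain ⟨e, he⟩ := h v hv
    refine ⟨e.symm, fun σ hσ ι => ?_⟩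
    rw [Equiv.symm_apply_eq, he σ hσ, Equiv.apply_symm_apply]
  trans {c c' c''} h1 h2 v hv := by
    obtain ⟨e, he⟩ := h1 v hv
    obtain ⟨e', he'⟩ := h2 v hv
    refine ⟨e.trans e', fun σ hσ ι => ?_⟩
    rw [Equiv.trans_apply, he σ hσ, he' σ hσ, Equiv.trans_apply]

private theorem mea_fin (hW : WStat K) (R : ℕ) : {c : Cu K | c.D ≤ (R : ℝ)}.Finite := by
  obtain ⟨C, _, hC⟩ := hW
  refine (hC (max 1 (R : ℝ)) (le_max_left _ _)).1.subset fun c hc => ?_
  rw [Set.mem_ofPred_eq] at hc ⊢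
  exact hc.trans (le_max_right _ _)

private theorem mea_sum {S : Finset (Pl K)} {Q : DP K QBar} (hW : WStat K) (Am : Cu K → ℝ)
    (cc : (Gal(QBar/K) →* Equiv.Perm (Fin 3)) → Cu K) (hcc : ∀ χ ∈ Ch K, (cc χ).F = F0 χ)
    (hfin : ∀ R : ℕ, {χ : Gal(QBar/K) →* Equiv.Perm (Fin 3) | χ ∈ Ch K ∧ dD χ ≤ R}.Finite)
    (c₀ : Cu K) (R : ℕ) :
    ∑ χ ∈ (hfin R).toFinset with LEq S Q c₀ (cc χ), Am (cc χ) =
      2 * ∑ᶠ c ∈ {c : Cu K | LEq S Q c₀ c ∧ c.D ≤ (R : ℝ)}, Am c := by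
  have hF : {c : Cu K | LEq S Q c₀ c ∧ c.D ≤ (R : ℝ)}.Finite :=
    (mea_fin hW R).subset fun c hc => hc.2
  have hD : ∀ χ ∈ Ch K, (cc χ).D = (dD χ : ℝ) := fun χ hχ => cdd χ (cc χ) (hcc χ hχ)
  have hmap : ∀ χ ∈ (hfin R).toFinset.filter (fun χ => LEq S Q c₀ (cc χ)),
      cc χ ∈ hF.toFinset := by
    intro χ hχ
    rw [Finset.mem_filter, Set.Finite.mem_toFinset] at hχ
    rw [Set.Finite.mem_toFinset]
    refine ⟨hχ.2, ?_⟩
    rw [hD χ hχ.1.1]
    exact_mod_cast hχ.1.2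
  rw [finsum_mem_eq_finite_toFinset_sum _ hF, Finset.mul_sum,
    ← Finset.sum_fiberwise_of_maps_to hmap]
  refine Finset.sum_congr rfl fun c hc => ?_
  rw [Set.Finite.mem_toFinset] at hc
  have hset : (((hfin R).toFinset.filter (fun χ => LEq S Q c₀ (cc χ))).filter
      (fun χ => cc χ = c)) = (two c).1.toFinset := by
    ext χ
    rw [Finset.mem_filter, Finset.mem_filter, Set.Finite.mem_toFinset, Set.Finite.mem_toFinset]
    constructor
    · rintro ⟨⟨h1, _⟩, h3⟩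
      refine ⟨h1.1, ?_⟩
      rw [← h3]
      exact hcc χ h1.1
    · rintro ⟨h1, h2⟩
      have hc' : cc χ = c := cu_ext _ _ ((hcc χ h1).trans h2.symm)
      refine ⟨⟨⟨h1, ?_⟩, ?_⟩, hc'⟩
      · have h3 : (dD χ : ℝ) ≤ (R : ℝ) := by
          rw [← hD χ h1, hc']
          exact hc.2
        exact_mod_cast h3
      · rw [hc']
        exact hc.1
  have hcard : (two c).1.toFinset.card = 2 := by
    rw [← Set.ncard_eq_toFinset_card _ (two c).1]
    exact (two c).2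
  rw [Finset.sum_congr rfl (g := fun _ => Am c) (fun χ hχ => by
    rw [(Finset.mem_filter.1 hχ).2]), Finset.sum_const, hset, hcard, nsmul_eq_mul]
  norm_num

theorem mea {S : Finset (Pl K)} {Q : DP K QBar} (hW : WStat K) (hL : LFin K S Q) (Am : Cu K → ℝ)
    (h5 : LS5 K S Q Am) (W : Cu K → ℝ) (hW0 : ∀ c, 0 ≤ W c)
    (hWL : ∀ c c', LEq S Q c c' → W c = W c')
    (cc : (Gal(QBar/K) →* Equiv.Perm (Fin 3)) → Cu K) (hcc : ∀ χ ∈ Ch K, (cc χ).F = F0 χ)
    (hfin : ∀ R : ℕ, {χ : Gal(QBar/K) →* Equiv.Perm (Fin 3) | χ ∈ Ch K ∧ dD χ ≤ R}.Finite) :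
    ∃ a : ℝ, 0 ≤ a ∧ ((∃ c, 0 < W c) → 0 < a) ∧ Tendsto (fun R : ℕ =>
      (∑ χ ∈ (hfin R).toFinset, W (cc χ) * Am (cc χ)) / (R : ℝ)) atTop (𝓝 a) := by
  obtain ⟨T, hT⟩ := hL
  let st : Setoid (Cu K) := { r := LEq S Q, iseqv := mea_leq S Q }
  have hst : ∀ c c' : Cu K, Quotient.mk st c = Quotient.mk st c' ↔ LEq S Q c c' :=
    fun c c' => Quotient.eq
  have key : ∀ b ∈ T.image (Quotient.mk st), ∃ a : ℝ, 0 ≤ a ∧
      ((∃ c, Quotient.mk st c = b ∧ 0 < W c) → 0 < a) ∧ Tendsto (fun R : ℕ =>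
        (∑ χ ∈ (hfin R).toFinset with Quotient.mk st (cc χ) = b, W (cc χ) * Am (cc χ)) /
          (R : ℝ)) atTop (𝓝 a) := by
    intro b hb
    obtain ⟨c₀, h0, rfl⟩ := Finset.mem_image.1 hb
    obtain ⟨a, ha, hlim⟩ := h5 c₀
    refine ⟨W c₀ * (2 * a), mul_nonneg (hW0 c₀) (by positivity), ?_, ?_⟩
    · rintro ⟨c, hc, hpos⟩
      rw [hWL c c₀ ((hst _ _).1 hc)] at hpos
      positivity
    · have hlim' := ((hlim.comp tendsto_natCast_atTop_atTop).const_mul 2).const_mul (W c₀)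
      refine hlim'.congr fun R => ?_
      have h1 : ∑ χ ∈ (hfin R).toFinset with Quotient.mk st (cc χ) = Quotient.mk st c₀,
          W (cc χ) * Am (cc χ) =
          W c₀ * ∑ χ ∈ (hfin R).toFinset with LEq S Q c₀ (cc χ), Am (cc χ) := by
        rw [Finset.mul_sum]
        have hs : (hfin R).toFinset.filter
            (fun χ => Quotient.mk st (cc χ) = Quotient.mk st c₀) =
            (hfin R).toFinset.filter (fun χ => LEq S Q c₀ (cc χ)) := by
          refine Finset.filter_congr fun χ _ => ?_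
          rw [hst]
          exact ⟨fun h => (mea_leq S Q).symm h, fun h => (mea_leq S Q).symm h⟩
        rw [hs]
        refine Finset.sum_congr rfl fun χ hχ => ?_
        rw [hWL c₀ (cc χ) (Finset.mem_filter.1 hχ).2]
      rw [h1, mea_sum hW Am cc hcc hfin c₀ R]
      simp only [Function.comp_apply]
      ring
  choose! L hL0 hL1 hL2 using key
  refine ⟨∑ b ∈ T.image (Quotient.mk st), L b, Finset.sum_nonneg hL0, ?_, ?_⟩
  · rintro ⟨c, hc⟩
    obtain ⟨c₀, h0, h1⟩ := hT c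
    refine Finset.sum_pos' hL0 ⟨Quotient.mk st c₀, Finset.mem_image_of_mem _ h0, ?_⟩
    exact hL1 _ (Finset.mem_image_of_mem _ h0) ⟨c, ((hst _ _).2 h1).symm, hc⟩
  · refine (tendsto_finsetSum _ hL2).congr fun R => ?_
    rw [← Finset.sum_div]
    congr 1
    refine Finset.sum_fiberwise_of_maps_to (fun χ _ => ?_) _
    obtain ⟨c₀, h0, h1⟩ := hT (cc χ)
    rw [Finset.mem_image]
    exact ⟨c₀, h0, (hst _ _).2 h1⟩

end H38.SE
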