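import Pool.Agent.H38.SE.Defs
import Pool.Agent.H38.EN.Af3

/-!
# [H38 SE TRI] trivial bounds, 110-170 lines. File Pool/Agent/H38/SE/Tri.lean

* `tri0`: `AS K S Y ⊆ AF K Y`, `af3` (H38/EN/Af3.lean).
* `tri_np`: the number of primes of `F` over `l` is at most 3 (`Ideal.sum_ramification_inertia`; or a fibre bound as in H48/T3, search `Over` with `ncard`/`card_le`; `primesOver`), and at least 1. So `0 ≤ lam l ≤ 3` (`lam l = 2 ^ (np l - 1) - 1`).
* `tri_ev`: `Ev l` has at most 3 elements. If `np l ≤ 2` there are at most 3 nonempty sets of primes over `l`. If `np l = 3`: `∑ e f = 3` gives `e = f = 1`, so `N P = N l` for all three, `∏_{P ∈ g} N P = (N l)^#g`, so `#g` is even (`N l ≥ 2`), `g ≠ ∅`: 3 sets. (`Ev l` is a set of finite subsets of the finite set of the primes over `l`.)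
* `tri1`: `0 ≤ c.mq S Y ≤ ∑_{q ∈ AS} 3 ^ #q`. `tri2`: `|x.lp l| ≤ 3`: a `finsum` of at most 3 terms of absolute value `≤ 1` (`‖χ I‖ ≤ 1` by `norm_one`, `zero_of`; `Complex.abs_re_le_norm`), so `|x.sq Y| ≤ ∑_{q ∈ AS} 3 ^ #q`.
-/

set_option autoImplicit false

open scoped NumberField Classical
open IsDedekindDomain H38.ML H63.MA H67.SX

noncomputable section

namespace H38.SE

private theorem tri_sum {K : Type} [Field K] [NumberField K] {L : Type} [Field L] [NumberField L]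
    [Algebra K L] (v : Pl K) :
    ∑ w ∈ (over_finite (L := L) v).toFinset,
      w.asIdeal.ramificationIdx (𝓞 K) * w.asIdeal.inertiaDeg (𝓞 K) ≤ Module.finrank K L := by
  have hvm : v.asIdeal.IsMaximal := v.isMaximal
  have hfin : (v.asIdeal.primesOver (𝓞 L)).Finite :=
    IsDedekindDomain.primesOver_finite v.asIdeal (𝓞 L)
  have hft : Fintype (v.asIdeal.primesOver (𝓞 L)) := hfin.fintype
  have h2 : Module.finrank (𝓞 K) (𝓞 L) = Module.finrank K L :=
    (IsFractionRing.finrank_eq (𝓞 K) K (𝓞 L) L).symm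
  rw [← h2, ← Ideal.sum_ramification_inertia_eq_finrank v.asIdeal,
    Finset.sum_set_coe (v.asIdeal.primesOver (𝓞 L))
      (f := fun Q => Q.ramificationIdx (𝓞 K) * Q.inertiaDeg (𝓞 K))]
  have h5 : ∑ w ∈ (over_finite (L := L) v).toFinset,
      w.asIdeal.ramificationIdx (𝓞 K) * w.asIdeal.inertiaDeg (𝓞 K) =
      ∑ I ∈ (over_finite (L := L) v).toFinset.image (fun w => w.asIdeal),
        I.ramificationIdx (𝓞 K) * I.inertiaDeg (𝓞 K) := by
    rw [Finset.sum_image (fun a _ b _ h => HeightOneSpectrum.ext h)]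
  have h4 : ((over_finite (L := L) v).toFinset.image fun w : Pl L => w.asIdeal) ⊆
      (v.asIdeal.primesOver (𝓞 L)).toFinset := by
    intro P hP
    obtain ⟨w, hw, rfl⟩ := Finset.mem_image.1 hP
    rw [Set.Finite.mem_toFinset] at hw
    rw [Set.mem_toFinset]
    exact ⟨w.isPrime, ⟨hw.symm⟩⟩
  rw [h5]
  exact Finset.sum_le_sum_of_subset h4

private theorem tri_pos {K : Type} [Field K] [NumberField K] {L : Type} [Field L] [NumberField L]
    [Algebra K L] (v : Pl K) (w : Pl L) (hw : Over w v) :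
    1 ≤ w.asIdeal.ramificationIdx (𝓞 K) ∧ 1 ≤ w.asIdeal.inertiaDeg (𝓞 K) := by
  have h5 : w.asIdeal.LiesOver v.asIdeal := ⟨hw.symm⟩
  have h6 : w.asIdeal.IsPrime := w.isPrime
  exact ⟨w.asIdeal.ramificationIdx_pos (𝓞 K), w.asIdeal.inertiaDeg_pos (𝓞 K)⟩

private theorem tri_card {K : Type} [Field K] [NumberField K] {L : Type} [Field L] [NumberField L]
    [Algebra K L] (v : Pl K) :
    (over_finite (L := L) v).toFinset.card ≤ Module.finrank K L := by
  refine le_trans ?_ (tri_sum (L := L) v)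
  rw [Finset.card_eq_sum_ones]
  refine Finset.sum_le_sum fun w hw => ?_
  rw [Set.Finite.mem_toFinset] at hw
  obtain ⟨h1, h2⟩ := tri_pos v w hw
  exact Nat.succ_le_of_lt (Nat.mul_pos h1 h2)

private theorem tri_nm {K : Type} [Field K] [NumberField K] {L : Type} [Field L] [NumberField L]
    [Algebra K L] (v : Pl K)
    (h : (over_finite (L := L) v).toFinset.card = Module.finrank K L) (w : Pl L)
    (hw : Over w v) : nm w = nm v := by
  have hs := tri_sum (L := L) v
  have hw1 : w ∈ (over_finite (L := L) v).toFinset := by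
    rw [Set.Finite.mem_toFinset]
    exact hw
  have h1 : ∀ u ∈ (over_finite (L := L) v).toFinset,
      1 ≤ u.asIdeal.ramificationIdx (𝓞 K) * u.asIdeal.inertiaDeg (𝓞 K) := by
    intro u hu
    rw [Set.Finite.mem_toFinset] at hu
    obtain ⟨h1, h2⟩ := tri_pos v u hu
    exact Nat.succ_le_of_lt (Nat.mul_pos h1 h2)
  have h3 : ∑ u ∈ (over_finite (L := L) v).toFinset, 1 =
      ∑ u ∈ (over_finite (L := L) v).toFinset,
        u.asIdeal.ramificationIdx (𝓞 K) * u.asIdeal.inertiaDeg (𝓞 K) := by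
    refine le_antisymm (Finset.sum_le_sum h1) ?_
    rw [← Finset.card_eq_sum_ones, h]
    exact hs
  have h4 := (Finset.sum_eq_sum_iff_of_le h1).1 h3 w hw1
  have h5 : w.asIdeal.inertiaDeg (𝓞 K) = 1 := Nat.eq_one_of_mul_eq_one_left h4.symm
  have : w.asIdeal.LiesOver v.asIdeal := ⟨hw.symm⟩
  have h6 : nm w = nm v ^ w.asIdeal.inertiaDeg (𝓞 K) :=
    (Ideal.absNorm_pow_inertiaDeg v.asIdeal w.asIdeal).symm
  rw [h6, h5, pow_one]

variable (K : IntermediateField ℚ QBar) [NumberField K]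

theorem tri0 : ∃ C : ℝ, 1 ≤ C ∧ ∀ (S : Finset (Pl K)) (Y : ℝ), 1 ≤ Y →
    ∑ q ∈ AS K S Y, (3 : ℝ) ^ q.card ≤ C * Y * (1 + Real.log Y) ^ 2 := by
  obtain ⟨C, hC, h⟩ := H38.EN.af3 K
  refine ⟨C, hC, fun S Y hY => le_trans ?_ (h Y hY)⟩
  exact Finset.sum_le_sum_of_subset_of_nonneg (Finset.filter_subset _ _) fun _ _ _ => by positivity

variable {K}

theorem tri_np (c : Cu K) (l : Pl K) : {P : Pl c.F | Over P l}.Finite ∧ 1 ≤ c.np l ∧ c.np l ≤ 3 := by
  have hfin : {P : Pl c.F | Over P l}.Finite := over_finite l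
  refine ⟨hfin, ?_, ?_⟩
  · obtain ⟨w, hw⟩ := exists_over (L := c.F) l
    exact (Set.ncard_pos hfin).2 ⟨w, hw⟩
  · have h1 := tri_card (L := c.F) l
    rw [c.deg] at h1
    unfold Cu.np
    rw [Set.ncard_eq_toFinset_card _ hfin]
    exact h1

theorem tri_ev (c : Cu K) (l : Pl K) : (c.Ev l).Finite ∧ (c.Ev l).ncard ≤ 3 := by
  obtain ⟨hfin, hp1, hp3⟩ := tri_np c l
  have hcard : (over_finite (L := c.F) l).toFinset.card = c.np l :=
    (Set.ncard_eq_toFinset_card _ hfin).symm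
  have hsub : ∀ g ∈ c.Ev l, g ∈ (over_finite (L := c.F) l).toFinset.powerset.erase ∅ := by
    intro g hg
    rw [Finset.mem_erase, Finset.mem_powerset]
    refine ⟨hg.1.ne_empty, fun P hP => ?_⟩
    rw [Set.Finite.mem_toFinset]
    exact hg.2.1 P hP
  have hF : (c.Ev l).Finite := (Finset.finite_toSet _).subset hsub
  refine ⟨hF, ?_⟩
  rcases Nat.lt_or_ge (c.np l) 3 with h3 | h3
  · have h1 : (c.Ev l).ncard ≤ ((over_finite (L := c.F) l).toFinset.powerset.erase ∅).card := by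
      rw [← Set.ncard_coe_finset]
      exact Set.ncard_le_ncard hsub (Finset.finite_toSet _)
    refine h1.trans ?_
    rw [Finset.card_erase_of_mem (Finset.empty_mem_powerset _), Finset.card_powerset, hcard]
    have h2 : 2 ^ c.np l ≤ 2 ^ 2 := Nat.pow_le_pow_right (by norm_num) (by omega)
    omega
  · have h4 : c.np l = 3 := le_antisymm hp3 h3
    have hnm : ∀ P : Pl c.F, Over P l → nm P = nm l := by
      intro P hP
      refine tri_nm l ?_ P hP
      rw [hcard, h4, c.deg]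
    have h5 : ∀ g ∈ c.Ev l, g ∈ Finset.powersetCard 2 (over_finite (L := c.F) l).toFinset := by
      intro g hg
      have h6 := hsub g hg
      rw [Finset.mem_erase, Finset.mem_powerset] at h6
      rw [Finset.mem_powersetCard]
      refine ⟨h6.2, ?_⟩
      obtain ⟨hne, hov, k, hk⟩ := hg
      rw [Finset.prod_congr rfl (fun P hP => hnm P (hov P hP)), Finset.prod_const] at hk
      have h7 : g.card = 2 * k := Nat.pow_right_injective (one_lt_nm l) hk
      have h8 : g.card ≤ 3 := by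
        refine (Finset.card_le_card h6.2).trans ?_
        rw [hcard, h4]
      have h9 : 0 < g.card := Finset.card_pos.2 hne
      omega
    have h1 : (c.Ev l).ncard ≤
        (Finset.powersetCard 2 (over_finite (L := c.F) l).toFinset).card := by
      rw [← Set.ncard_coe_finset]
      exact Set.ncard_le_ncard h5 (Finset.finite_toSet _)
    refine h1.trans ?_
    rw [Finset.card_powersetCard, hcard, h4]
    decide

private theorem tri_lam (c : Cu K) (l : Pl K) : 0 ≤ c.lam l ∧ c.lam l ≤ 3 := by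
  obtain ⟨-, h1, h3⟩ := tri_np c l
  unfold Cu.lam
  have h4 : c.np l = 1 ∨ c.np l = 2 ∨ c.np l = 3 := by omega
  rcases h4 with h | h | h <;> rw [h] <;> norm_num

private theorem tri_lp {S : Finset (Pl K)} (x : AQ K S) (l : Pl K) : |x.lp l| ≤ 3 := by
  obtain ⟨hF, h3⟩ := tri_ev x.c l
  unfold AQ.lp
  rw [finsum_mem_eq_finite_toFinset_sum _ hF]
  refine (Finset.abs_sum_le_sum_abs _ _).trans ?_
  have h1 : ∑ g ∈ hF.toFinset, |∏ P ∈ g, (x.χ.χ P.asIdeal).re| ≤ ∑ g ∈ hF.toFinset, (1 : ℝ) := by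
    refine Finset.sum_le_sum fun g _ => ?_
    rw [Finset.abs_prod]
    exact Finset.prod_le_one (fun _ _ => abs_nonneg _) fun P _ =>
      (Complex.abs_re_le_norm _).trans (H57.LI.norm_rc x.χ P.asIdeal)
  refine h1.trans ?_
  rw [Finset.sum_const, nsmul_eq_mul, mul_one, ← Set.ncard_eq_toFinset_card _ hF]
  exact_mod_cast h3

variable (K)

theorem tri1 : ∃ C : ℝ, 1 ≤ C ∧ ∀ (S : Finset (Pl K)) (c : Cu K) (Y : ℝ), 1 ≤ Y →
    0 ≤ c.mq S Y ∧ c.mq S Y ≤ C * Y * (1 + Real.log Y) ^ 2 := by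
  obtain ⟨C, hC, h⟩ := tri0 K
  refine ⟨C, hC, fun S c Y hY => ⟨?_, le_trans ?_ (h S Y hY)⟩⟩
  · exact Finset.sum_nonneg fun q _ => Finset.prod_nonneg fun l _ => (tri_lam c l).1
  · refine Finset.sum_le_sum fun q _ => ?_
    rw [← Finset.prod_const]
    exact Finset.prod_le_prod (fun l _ => (tri_lam c l).1) fun l _ => (tri_lam c l).2

theorem tri2 : ∃ C : ℝ, 1 ≤ C ∧ ∀ (S : Finset (Pl K)) (x : AQ K S) (Y : ℝ), 1 ≤ Y →
    |x.sq Y| ≤ C * Y * (1 + Real.log Y) ^ 2 := by
  obtain ⟨C, hC, h⟩ := tri0 K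
  refine ⟨C, hC, fun S x Y hY => le_trans ?_ (h S Y hY)⟩
  unfold AQ.sq
  refine (Finset.abs_sum_le_sum_abs _ _).trans (Finset.sum_le_sum fun q _ => ?_)
  rw [Finset.abs_prod, ← Finset.prod_const]
  exact Finset.prod_le_prod (fun _ _ => abs_nonneg _) fun l _ => tri_lp x l

end H38.SE
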