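import Pool.Agent.H38.SE.Chc

/-!
# [H38 SE TWO] every non-Galois cubic field comes from exactly two characters, 130-200 lines. File Pool/Agent/H38/SE/Two.lean

* `two_ex`: the set `c.F →ₐ[K] QBar` has 3 elements (`c.deg`; `AlgHom.card` or `Field.finSepDegree`.., see the proof of `small_field`, H38/ML/Small.lean), choose `e : (c.F →ₐ[K] QBar) ≃ Fin 3` with `e c.F.val = 0` (compose with a `swap`), `χ σ = e ∘ (σ ∘ ·) ∘ e⁻¹`: a homomorphism. `χ σ 0 = 0` iff `σ ∘ c.F.val = c.F.val` iff `σ ∈ c.F.fixingSubgroup` (`small_comp_val_eq_iff`), so `F0 χ = c.F` (`IntermediateField.fixedField_fixingSubgroup`: `QBar / K` is Galois).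
  Finite type: the kernel contains the fixing subgroup of the normal closure (`IntermediateField.normalClosure`, finite over `K`), or of the compositum of the images of the three embeddings. Surjective: the image `H` is transitive (every embedding is `σ ∘ c.F.val`: `small_exists_ext`). If `H ≠ ⊤` then `H` has order 3 (`3 ∣ #H ∣ 6`, `#H ≠ 6`), so an element of `H` which fixes `0` is `1` (orbit-stabilizer, or: a subgroup of `Perm (Fin 3)` of order 3 has `g ^ 3 = 1` for all `g ∈ H`, and `g ^ 3 = 1`, `g 0 = 0` imply `g = 1` by `decide`);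
  then `c.F.fixingSubgroup = ker χ` is normal and `c.F` is Galois (`IsGalois` of a normal fixing subgroup: `IntermediateField.normal_iff_..`/`InfiniteGalois.normal_iff_isGalois`), against `c.non`.
* `two`: let `χ₁` be one of them. If `χ ∈ Ch K`, `F0 χ = F0 χ₁`, then `{σ | χ σ 0 = 0} = {σ | χ₁ σ 0 = 0}` (fixing subgroups, `fixing_fixedField`), so `β (χ₁ σ 0) = χ σ 0` is a well defined bijection of `Fin 3` (`χ σ 0 = χ τ 0` iff `χ (τ⁻¹ σ) 0 = 0`), `β 0 = 0` and `χ τ = β χ₁ τ β⁻¹` for all `τ`. Conversely for every `β` with `β 0 = 0` the homomorphism `β χ₁ β⁻¹` is in the set (same kernel, same `{σ | χ σ 0 = 0}`).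
  There are two such `β`: `1` and `swap 1 2` (`decide`), and they give different `χ` (if `swap 1 2` commutes with all `χ₁ τ`, i.e. with all of `Perm (Fin 3)`, contradiction by `decide`). So the set is `{χ₁, (swap 1 2) χ₁ (swap 1 2)⁻¹}`, `Set.ncard_pair`.
-/

set_option autoImplicit false

open scoped NumberField Classical
open IsDedekindDomain H38.ML H63.MA H67.SX

noncomputable section

namespace H38.SE

variable {K : IntermediateField ℚ QBar} [NumberField K]

private theorem gen_dec : ∀ s g p : Equiv.Perm (Fin 3), s 0 = 0 → s ≠ 1 → g 0 = 1 →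
    (p = 1 ∨ p = s ∨ p = g ∨ p = s * g ∨ p = g * s ∨ p = s * g * s) := by
  decide +kernel

private theorem fun_dec (β : Fin 3 → Fin 3) (h0 : β 0 = 0) (h1 : β 1 ≠ 0) (h2 : β 2 ≠ 0) (h12 : β 1 ≠ β 2) :
    (∀ i, β i = i) ∨ ∀ i, β i = Equiv.swap (1 : Fin 3) 2 i := by
  have key : ∀ a b : Fin 3, a ≠ 0 → b ≠ 0 → a ≠ b → (a = 1 ∧ b = 2) ∨ (a = 2 ∧ b = 1) := by decide +kernel
  rcases key _ _ h1 h2 h12 with ⟨ha, hb⟩ | ⟨ha, hb⟩
  · left
    intro i
    match i with
    | 0 => exact h0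
    | 1 => exact ha
    | 2 => exact hb
  · right
    intro i
    match i with
    | 0 =>
      rw [h0]
      decide +kernel
    | 1 =>
      rw [ha]
      decide +kernel
    | 2 =>
      rw [hb]
      decide +kernel

private theorem com_dec : ¬ ∀ p : Equiv.Perm (Fin 3), Equiv.swap (1 : Fin 3) 2 * p * (Equiv.swap (1 : Fin 3) 2)⁻¹ = p := by
  decide +kernel

/-- the action on the embeddings -/
private def actE (L : IntermediateField K QBar) : Gal(QBar/K) →* Equiv.Perm (L →ₐ[K] QBar) where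
  toFun σ := ⟨fun φ => ((σ : Gal(QBar/K)) : QBar →ₐ[K] QBar).comp φ,
    fun φ => ((σ⁻¹ : Gal(QBar/K)) : QBar →ₐ[K] QBar).comp φ,
    fun φ => by
      ext x
      exact σ.symm_apply_apply (φ x),
    fun φ => by
      ext x
      exact σ.apply_symm_apply (φ x)⟩
  map_one' := by
    ext φ x
    rfl
  map_mul' σ τ := by
    ext φ x
    rfl

omit [NumberField K] in
private theorem stab_eq {χ : Gal(QBar/K) →* Equiv.Perm (Fin 3)} {σ : Gal(QBar/K)} :
    σ ∈ (MulAction.stabilizer (Equiv.Perm (Fin 3)) (0 : Fin 3)).comap χ ↔ χ σ 0 = 0 := by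
  rw [Subgroup.mem_comap, MulAction.mem_stabilizer_iff]
  rfl

private theorem fix_eq {χ : Gal(QBar/K) →* Equiv.Perm (Fin 3)} (h : FT χ) :
    (F0 χ).fixingSubgroup = (MulAction.stabilizer (Equiv.Perm (Fin 3)) (0 : Fin 3)).comap χ := by
  obtain ⟨E, hE, hle⟩ := h
  refine (fixing_fixedField _ E ?_).1
  intro σ hσ
  have h1 : χ σ = 1 := hle hσ
  rw [stab_eq, h1]
  rfl

theorem two_ex (c : Cu K) : ∃ χ : Gal(QBar/K) →* Equiv.Perm (Fin 3), χ ∈ Ch K ∧ c.F = F0 χ := by
  have hgal : IsGalois K QBar := IsAlgClosure.isGalois K QBar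
  have hfd : FiniteDimensional K c.F := inferInstance
  have h1 : Nat.card (c.F →ₐ[K] QBar) = 3 := by
    rw [AlgHom.natCard_of_splits K c.F QBar (fun x => IsAlgClosed.splits _), c.deg]
  have hfin : Finite (c.F →ₐ[K] QBar) := Nat.finite_of_card_ne_zero (by rw [h1]; norm_num)
  obtain ⟨e, he⟩ : ∃ e : (c.F →ₐ[K] QBar) ≃ Fin 3, e c.F.val = 0 := by
    let e0 := Finite.equivFinOfCardEq h1
    exact ⟨e0.trans (Equiv.swap (e0 c.F.val) 0), Equiv.swap_apply_left _ _⟩
  let χ : Gal(QBar/K) →* Equiv.Perm (Fin 3) := e.permCongrHom.toMonoidHom.comp (actE c.F)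
  have hχ : ∀ σ i, χ σ i = e (((σ : Gal(QBar/K)) : QBar →ₐ[K] QBar).comp (e.symm i)) := fun σ i => rfl
  have he' : e.symm 0 = c.F.val := by rw [← he, Equiv.symm_apply_apply]
  have h0 : ∀ σ, χ σ 0 = 0 ↔ σ ∈ c.F.fixingSubgroup := by
    intro σ
    rw [hχ, he']
    have h2 := small_comp_val_eq_iff c.F σ 1
    rw [inv_one, one_mul] at h2
    rw [← h2]
    constructor
    · intro h3
      apply e.injective
      rw [h3, ← he]
      congr 1
    · intro h3
      rw [h3, ← he]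
      congr 1
  have hcom : (MulAction.stabilizer (Equiv.Perm (Fin 3)) (0 : Fin 3)).comap χ = c.F.fixingSubgroup := by
    ext σ
    rw [stab_eq, h0]
  have hF : c.F = F0 χ := by
    unfold F0
    rw [hcom]
    exact (InfiniteGalois.fixedField_fixingSubgroup c.F).symm
  have htr : ∀ i, ∃ σ, χ σ 0 = i := by
    intro i
    obtain ⟨σ, hσ⟩ := small_exists_ext c.F (e.symm i)
    refine ⟨σ, ?_⟩
    rw [hχ, he', ← hσ, Equiv.apply_symm_apply]
  have hFT : FT χ := by
    refine ⟨IntermediateField.normalClosure K c.F QBar, inferInstance, fun σ hσ => ?_⟩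
    rw [MonoidHom.mem_ker]
    ext i : 1
    rw [hχ]
    have h2 : ((σ : Gal(QBar/K)) : QBar →ₐ[K] QBar).comp (e.symm i) = e.symm i := by
      ext x
      have h3 : (e.symm i) x ∈ IntermediateField.normalClosure K c.F QBar :=
        (e.symm i).fieldRange_le_normalClosure ⟨x, rfl⟩
      exact (IntermediateField.mem_fixingSubgroup_iff _ σ).1 hσ _ h3
    rw [h2, Equiv.apply_symm_apply]
    rfl
  refine ⟨χ, ⟨hFT, ?_⟩, hF⟩
  by_contra hns
  have hker : ∀ σ, χ σ 0 = 0 → χ σ = 1 := by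
    intro σ hσ
    by_contra hne
    apply hns
    obtain ⟨τ, hτ⟩ := htr 1
    intro p
    rcases gen_dec (χ σ) (χ τ) p hσ hne hτ with h | h | h | h | h | h
    · exact ⟨1, by rw [map_one, h]⟩
    · exact ⟨σ, h.symm⟩
    · exact ⟨τ, h.symm⟩
    · exact ⟨σ * τ, by rw [map_mul, h]⟩
    · exact ⟨τ * σ, by rw [map_mul, h]⟩
    · exact ⟨σ * τ * σ, by rw [map_mul, map_mul, h]⟩
  have hk : c.F.fixingSubgroup = χ.ker := by
    ext σ
    rw [← h0, MonoidHom.mem_ker]
    constructor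
    · exact hker σ
    · intro h2
      rw [h2]
      rfl
  apply c.non
  rw [← InfiniteGalois.normal_iff_isGalois, hk]
  exact inferInstance

theorem two (c : Cu K) :
    {χ : Gal(QBar/K) →* Equiv.Perm (Fin 3) | χ ∈ Ch K ∧ c.F = F0 χ}.Finite ∧
    {χ : Gal(QBar/K) →* Equiv.Perm (Fin 3) | χ ∈ Ch K ∧ c.F = F0 χ}.ncard = 2 := by
  obtain ⟨χ₁, h1, hF1⟩ := two_ex c
  obtain ⟨s, hs⟩ : ∃ s : Equiv.Perm (Fin 3), s = Equiv.swap (1 : Fin 3) 2 := ⟨_, rfl⟩
  have hs0 : s 0 = 0 := by rw [hs]; decide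
  have hs0' : s⁻¹ 0 = 0 := by rw [hs]; decide
  let χ₂ : Gal(QBar/K) →* Equiv.Perm (Fin 3) := (MulAut.conj s).toMonoidHom.comp χ₁
  have hχ₂ : ∀ σ, χ₂ σ = s * χ₁ σ * s⁻¹ := fun σ => rfl
  have h2 : χ₂ ∈ Ch K := by
    obtain ⟨⟨E, hE, hle⟩, hsj⟩ := h1
    refine ⟨⟨E, hE, fun σ hσ => ?_⟩, ?_⟩
    · have h3 : χ₁ σ = 1 := hle hσ
      rw [MonoidHom.mem_ker, hχ₂, h3, mul_one, mul_inv_cancel]
    · exact (MulAut.conj s).surjective.comp hsj
  have hF2 : c.F = F0 χ₂ := by
    rw [hF1]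
    unfold F0
    congr 1
    ext σ
    rw [stab_eq, stab_eq, hχ₂]
    constructor
    · intro h3
      show s (χ₁ σ (s⁻¹ 0)) = 0
      rw [hs0', h3, hs0]
    · intro h3
      have h4 : s (χ₁ σ (s⁻¹ 0)) = 0 := h3
      rw [hs0'] at h4
      apply s.injective
      rw [h4, hs0]
  have hne : χ₁ ≠ χ₂ := by
    intro h3
    apply com_dec
    intro p
    obtain ⟨σ, hσ⟩ := h1.2 p
    rw [← hσ, ← hs, ← hχ₂, ← h3]
  have hset : {χ : Gal(QBar/K) →* Equiv.Perm (Fin 3) | χ ∈ Ch K ∧ c.F = F0 χ} = {χ₁, χ₂} := by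
    ext χ
    rw [Set.mem_ofPred_eq, Set.mem_insert_iff, Set.mem_singleton_iff]
    constructor
    · rintro ⟨h, hF⟩
      -- the same stabilizers
      have hst : ∀ σ, χ σ 0 = 0 ↔ χ₁ σ 0 = 0 := by
        intro σ
        rw [← stab_eq, ← stab_eq, ← fix_eq h.1, ← fix_eq h1.1, ← hF, ← hF1]
      have hst2 : ∀ σ τ, χ σ 0 = χ τ 0 ↔ χ₁ σ 0 = χ₁ τ 0 := by
        intro σ τ
        have h3 : ∀ ψ : Gal(QBar/K) →* Equiv.Perm (Fin 3), ψ (τ⁻¹ * σ) 0 = 0 ↔ ψ σ 0 = ψ τ 0 := by
          intro ψ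
          rw [map_mul, map_inv, Equiv.Perm.mul_apply, Equiv.Perm.inv_eq_iff_eq, eq_comm (b := ψ τ 0)]
        rw [← h3, ← h3, hst]
      have hex : ∀ i, ∃ σ, χ₁ σ 0 = i := by
        intro i
        obtain ⟨σ, hσ⟩ := h1.2 (Equiv.swap 0 i)
        exact ⟨σ, by rw [hσ, Equiv.swap_apply_left]⟩
      choose f hf using hex
      obtain ⟨β, hβ⟩ : ∃ β : Fin 3 → Fin 3, β = fun i => χ (f i) 0 := ⟨_, rfl⟩
      have hβ1 : ∀ τ, β (χ₁ τ 0) = χ τ 0 := by
        intro τ
        rw [hβ]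
        exact (hst2 _ _).2 (hf _)
      have hβ2 : ∀ τ i, β (χ₁ τ i) = χ τ (β i) := by
        intro τ i
        have h3 : χ₁ τ i = χ₁ (τ * f i) 0 := by rw [map_mul, Equiv.Perm.mul_apply, hf]
        rw [h3, hβ1, map_mul, Equiv.Perm.mul_apply, hβ]
      have hβ0 : β 0 = 0 := by
        have h3 := hβ1 1
        rw [map_one, map_one] at h3
        exact h3
      have hinj : ∀ i j, β i = β j → i = j := by
        intro i j hij
        rw [hβ] at hij
        have h3 := (hst2 _ _).1 hij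
        rw [hf, hf] at h3
        exact h3
      rcases fun_dec β hβ0 (fun h3 => by
          have := hinj 1 0 (by rw [h3, hβ0])
          revert this
          decide) (fun h3 => by
          have := hinj 2 0 (by rw [h3, hβ0])
          revert this
          decide) (fun h3 => by
          have := hinj 1 2 h3
          revert this
          decide) with h3 | h3
      · left
        ext τ i : 2
        have h4 := hβ2 τ i
        rw [h3, h3] at h4
        exact h4.symm
      · right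
        rw [← hs] at h3
        ext τ i : 2
        rw [hχ₂]
        show χ τ i = s (χ₁ τ (s⁻¹ i))
        have h4 := hβ2 τ (s⁻¹ i)
        have h5 : s (s⁻¹ i) = i := s.apply_symm_apply i
        rw [h3, h3, h5] at h4
        exact h4.symm
    · rintro (rfl | rfl)
      · exact ⟨h1, hF1⟩
      · exact ⟨h2, hF2⟩
  rw [hset]
  exact ⟨Set.toFinite _, Set.ncard_pair hne⟩

end H38.SE
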